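import Pool.Agent.Y501.SY.PubT

/-!
# Bounded eccentricity: the definition used in the statement
-/

set_option autoImplicit false

open Set Filter Topology MeasureTheory
open scoped Manifold ContDiff

noncomputable section

namespace Pool.Agent.U896.SEP

open Pool.Agent.Y501.SYP

variable {V : Type} [NormedAddCommGroup V] [NormedSpace ℝ V]
  {X : Type} [TopologicalSpace X] [ChartedSpace V X]

/-- `σ` has bounded eccentricity with respect to `J` on the complement of `K` near `x`, where it
is large: in the chart at `x`, for some `c > 0` and `C`,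
`σ(v, Jv) ≥ c (|σ| - C) |v|²` for all `v`, at all points near `x` which are not in `K`. -/
def EccNear (σ : Form V X 2) (J : End V X) (K : Set X) (x : X) : Prop :=
  ∃ c : ℝ, 0 < c ∧ ∃ C : ℝ, ∀ᶠ p in 𝓝 (chartAt V x x), (chartAt V x).symm p ∉ K →
    ∀ v : V, c * (‖pb (chartAt V x).symm σ p‖ - C) * ‖v‖ ^ 2 ≤
      pb (chartAt V x).symm σ p ![v, inChart J x p v]

end Pool.Agent.U896.SEP
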