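import Pool.Agent.U896.SE.MainE
import Pool.Agent.U896.SE.PubE
import Pool.Agent.Y501.SY.BridgeT
import Pool.Agent.Y394.SY.Sm
import Pool.Agent.Y949.SY.Patch2
import Pool.Agent.Y44.SY.QB
import Pool.Agent.Y44.SY.Imm

/-!
# Bounded eccentricity: the main theorem, with the public definitions
-/

set_option autoImplicit false

open Set Filter Topology MeasureTheory
open scoped Manifold ContDiff

noncomputable section

namespace Pool.Agent.U896.SEP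

open Pool.Agent.Y501
open Pool.Agent.Y501.SYP

section

variable {d : ℕ} {X : Type} [TopologicalSpace X] [ChartedSpace (ES d) X]

attribute [local instance] cs mf

theorem ecc_off {K : Set X} (hK : IsClosed K) {σ : Form (ES d) X 2} (hσ : ClosedOff σ K)
    [IsManifold 𝓘(ℝ, ES d) ∞ X] {J : End (ES d) X}
    (hpos : ∀ x, x ∉ K → ∀ v : TangentSpace 𝓘(ℝ, ES d) x, 0 ≤ qd σ J x v) {x : X} (hx : x ∉ K) :
    SE.EccAt (d := d) (X := X) σ J K x := by
  obtain ⟨B, hB⟩ := bdd_off hK hσ hx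
  refine ⟨1, one_pos, B, ?_⟩
  have h1 : ∀ᶠ p in 𝓝 (chartAt (ES d) x x), p ∈ (chartAt (ES d) x).target :=
    (chartAt (ES d) x).open_target.mem_nhds (mem_chart_target (ES d) x)
  filter_upwards [hB, h1] with p hp hpt hpK v
  have h2 := hp hpK
  have h3 := Pool.Agent.Y455.SY.Q_eq (d := d) (X := X) σ J x hpt v
  unfold Pool.Agent.Y455.SY.Q at h3
  rw [h3]
  have h4 : (0 : ℝ) ≤ σ ((chartAt (ES d) x).symm p)
      ![Pool.Agent.Y455.SY.A (d := d) (X := X) x p v,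
        J ((chartAt (ES d) x).symm p) (Pool.Agent.Y455.SY.A (d := d) (X := X) x p v)] :=
    hpos _ hpK _
  refine le_trans ?_ h4
  have h5 : ‖SY.pb (d := d) (X := X) (chartAt (SY.E d) x).symm σ p‖ - B ≤ 0 := sub_nonpos.2 h2
  have h6 : 0 ≤ ‖v‖ ^ 2 := sq_nonneg _
  rw [one_mul]
  exact mul_nonpos_of_nonpos_of_nonneg h5 h6

theorem removableE [IsManifold 𝓘(ℝ, ES d) ∞ X] [CompactSpace X] [T2Space X] (hd : 4 ≤ d)
    (J : End (ES d) X) (hJ : IsAlmostComplex J) (K : Set X) (hK : IsClosed K)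
    (hH : ∀ x₀ : X, μH[(d : ℝ) - 3] (chartAt (ES d) x₀ '' (K ∩ (chartAt (ES d) x₀).source)) = 0)
    (σ : Form (ES d) X 2) (hσ : ClosedOff σ K) (hb : ∀ x ∈ K, EccNear σ J K x)
    (hpos : ∀ x, x ∉ K → ∀ v : TangentSpace 𝓘(ℝ, ES d) x, 0 ≤ qd σ J x v)
    (hsmall : ∀ z ∈ Crit σ J K, SmallAll J (connectedComponentIn (Crit σ J K) z) z)
    (U : Set X) (hU : IsOpen U) (hKU : K ⊆ U) :
    ∃ (α : Form (ES d) X 1) (η w : Form (ES d) X 2), IsSmooth α ∧ IsSmooth η ∧ IsD α η ∧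
      IsTamingSymplectic w J ∧ ∀ x, x ∉ U → w x = addF σ η x := by
  obtain ⟨k₀, hk₀⟩ : ∃ k₀ : ℕ, d = k₀ + 3 := ⟨d - 3, by omega⟩
  have hcast : (d : ℝ) - 3 = (k₀ : ℝ) := by
    rw [hk₀]
    push_cast
    ring
  rw [hcast] at hH
  obtain ⟨α, η, w, h1, h2, h3, h4, h5, h6, h7⟩ := SE.mainE (d := d) (X := X) hk₀
    Pool.Agent.Y44.SY.t_IMM Pool.Agent.Y44.SY.t_QB Pool.Agent.Y394.SY.t_SM
    Pool.Agent.Y949.SY.t_PATCH2
    (J := J) (ac_of J hJ) (K := K) hK hH (σ := σ)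
    (fun V φ hV hφ hp => (hσ V φ ⟨hV, hφ⟩ hp).1)
    (fun V φ hV hφ hp p hpV => (hσ V φ ⟨hV, hφ⟩ hp).2 p hpV)
    (fun x => by
      by_cases hx : x ∈ K
      · exact hb x hx
      · exact ecc_off hK hσ hpos hx)
    hpos (fun z hz => smallAll_of hJ (hsmall z hz)) hU hKU
  exact ⟨α, η, w, (smooth_iff α).2 h1, (smooth_iff η).2 h2, (isD_iff α η).2 h3,
    symp_of ((smooth_iff w).2 h4) ((closed_iff w).2 h5) h6, h7⟩

end

end Pool.Agent.U896.SEP
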