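import Pool.Agent.Y515.SY.RG3
import Pool.Agent.Y932.SY.Ker

/-!
# Bounded eccentricity: averages of integrable forms over balls of variable radius
-/

set_option autoImplicit false

open Set Filter Topology MeasureTheory
open scoped Manifold ContDiff Convolution

noncomputable section

namespace Pool.Agent.U896.SE

open Pool.Agent.Y501.SY (E Moll S_SM)
open Pool.Agent.Y515.SY
open Pool.Agent.Y932.SY.Ker (kk subst region)

variable {d : ℕ}

/-- averages of an integrable function over balls of positive variable radius -/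
theorem ker (g χ : E d → ℝ) (hg : ContDiff ℝ ∞ g) (hgc : HasCompactSupport g)
    (hχ : ContDiff ℝ ∞ χ) (p₀ : E d) (hp₀ : 0 < χ p₀) :
    (∀ f : E d → ℝ, Integrable f volume →
      ContDiffAt ℝ ∞ (fun p => ∫ y, g y * f (p + χ p • y)) p₀) ∧
    ∃ C : ℝ, 0 ≤ C ∧ ∀ f : E d → ℝ, Integrable f volume →
      |∫ y, g y * f (p₀ + χ p₀ • y)| ≤ C * ∫ x, |f x| ∧
      ‖fderiv ℝ (fun p => ∫ y, g y * f (p + χ p • y)) p₀‖ ≤ C * ∫ x, |f x| := by
  obtain ⟨s, K, hs, hps, hK, hpos, hz, hsm⟩ := region g χ hg hgc hχ p₀ hp₀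
  have hev : ∀ f : E d → ℝ, (fun p => ∫ y, g y * f (p + χ p • y)) =ᶠ[𝓝 p₀]
      fun p => (f ⋆[ContinuousLinearMap.mul ℝ ℝ, volume] kk g χ p) 0 := by
    intro f
    filter_upwards [hs.mem_nhds hps] with p hp
    exact subst g χ f p (hpos p hp)
  refine ⟨fun f hf => ?_, ?_⟩
  · refine ContDiffAt.congr_of_eventuallyEq ?_ (hev f)
    have h1 := contDiffOn_convolution_right_with_param_comp (n := (⊤ : ℕ∞))
      (ContinuousLinearMap.mul ℝ ℝ) (v := fun _ : E d => (0 : E d)) contDiffOn_const hs hK hz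
      hf.locallyIntegrable hsm
    exact h1.contDiffAt (hs.mem_nhds hps)
  · -- bounds
    have hc1 : ContinuousOn (Function.HasUncurry.uncurry (kk g χ)) (s ×ˢ univ) := hsm.continuousOn
    have hc2 : ContinuousOn (fderiv ℝ (Function.HasUncurry.uncurry (kk g χ))) (s ×ˢ univ) :=
      hsm.continuousOn_fderiv_of_isOpen (hs.prod isOpen_univ) (by simp)
    have hm : ContinuousOn (fun x : E d => (p₀, x)) K := by fun_prop
    have hmm : MapsTo (fun x : E d => (p₀, x)) K (s ×ˢ univ) := fun x _ => ⟨hps, mem_univ _⟩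
    obtain ⟨C1, hC1⟩ := hK.exists_bound_of_continuousOn (hc1.comp hm hmm)
    obtain ⟨C2, hC2⟩ := hK.exists_bound_of_continuousOn (hc2.comp hm hmm)
    have hz' : ∀ x, x ∉ K → fderiv ℝ (Function.HasUncurry.uncurry (kk g χ)) (p₀, x) = 0 := by
      intro x hx
      apply (hasFDerivAt_zero_of_eventually_const (0 : ℝ) _).fderiv
      have M2 : Kᶜ ∈ 𝓝 x := IsOpen.mem_nhds hK.isClosed.isOpen_compl hx
      have M1 : s ∈ 𝓝 p₀ := hs.mem_nhds hps
      rw [nhds_prod_eq]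
      filter_upwards [prod_mem_prod M1 M2]
      rintro ⟨p, y⟩ ⟨hp, hy⟩
      exact hz p y hp hy
    have hb1 : ∀ x, ‖kk g χ p₀ x‖ ≤ |C1| := by
      intro x
      by_cases hx : x ∈ K
      · exact (hC1 x hx).trans (le_abs_self _)
      · rw [hz p₀ x hps hx, norm_zero]; exact abs_nonneg _
    have hb2 : ∀ x, ‖fderiv ℝ (Function.HasUncurry.uncurry (kk g χ)) (p₀, x)‖ ≤ |C2| := by
      intro x
      by_cases hx : x ∈ K
      · exact (hC2 x hx).trans (le_abs_self _)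
      · rw [hz' x hx, norm_zero]; exact abs_nonneg _
    set L := (ContinuousLinearMap.mul ℝ ℝ).precompR (E d × E d) with hL
    have hLs : ∀ (u : ℝ) (T : E d × E d →L[ℝ] ℝ), L u T = u • T := by
      intro u T
      ext v <;> simp [hL, ContinuousLinearMap.precompR_apply]
    refine ⟨max |C1| |C2|, (abs_nonneg _).trans (le_max_left _ _), fun f hfi => ?_⟩
    have hfn : 0 ≤ ∫ x, |f x| := integral_nonneg fun x => abs_nonneg _
    have hfa : Integrable (fun x => |f x|) volume := hfi.abs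
    constructor
    · rw [subst g χ f p₀ hp₀]
      unfold convolution
      have h1 : |∫ t, ((ContinuousLinearMap.mul ℝ ℝ) (f t)) (kk g χ p₀ (0 - t))| ≤
          ∫ t, |C1| * |f t| := by
        rw [← Real.norm_eq_abs]
        refine norm_integral_le_of_norm_le (hfa.const_mul _) (ae_of_all _ fun t => ?_)
        rw [ContinuousLinearMap.mul_apply', norm_mul, Real.norm_eq_abs (f t), mul_comm]
        exact mul_le_mul_of_nonneg_right (hb1 _) (abs_nonneg _)
      refine h1.trans ?_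
      rw [integral_const_mul]
      exact mul_le_mul_of_nonneg_right (le_max_left _ _) hfn
    · have h1 := hasFDerivAt_convolution_right_with_param (μ := volume)
        (ContinuousLinearMap.mul ℝ ℝ) hs hK hz
        hfi.locallyIntegrable (hsm.of_le (by simp)) (p₀, (0 : E d)) hps
      have h2 : HasFDerivAt (fun p : E d => (p, (0 : E d)))
          (ContinuousLinearMap.inl ℝ (E d) (E d)) p₀ := hasFDerivAt_prodMk_left p₀ 0
      have h3 := h1.comp p₀ h2
      have h4 := (h3.congr_of_eventuallyEq (hev f)).fderiv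
      rw [h4]
      have h5 : ‖(f ⋆[L, volume] fun x : E d => fderiv ℝ (Function.HasUncurry.uncurry (kk g χ))
          (p₀, x)) 0‖ ≤ |C2| * ∫ x, |f x| := by
        unfold convolution
        rw [← integral_const_mul]
        refine norm_integral_le_of_norm_le (hfa.const_mul _) (ae_of_all _ fun t => ?_)
        rw [hLs, norm_smul, Real.norm_eq_abs, mul_comm]
        exact mul_le_mul_of_nonneg_right (hb2 (0 - t)) (abs_nonneg _)
      refine (ContinuousLinearMap.opNorm_comp_le _ _).trans ?_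
      have h7 : ‖ContinuousLinearMap.inl ℝ (E d) (E d)‖ ≤ 1 := by
        refine ContinuousLinearMap.opNorm_le_bound _ zero_le_one fun x => ?_
        rw [ContinuousLinearMap.inl_apply, Prod.norm_def, norm_zero, one_mul]
        exact max_le le_rfl (norm_nonneg _)
      calc _ ≤ (|C2| * ∫ x, |f x|) * 1 :=
            mul_le_mul h5 h7 (norm_nonneg _) (by positivity)
        _ = |C2| * ∫ x, |f x| := mul_one _
        _ ≤ _ := mul_le_mul_of_nonneg_right (le_max_right _ _) hfn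

/-- composition of an integrable function with an affine dilation -/
theorem aff_int {W : Type} [NormedAddCommGroup W] {f : E d → W}
    (hf : Integrable f) (p : E d) {c : ℝ} (hc : c ≠ 0) :
    Integrable (fun y : E d => f (p + c • y)) := by
  have h1 : Integrable (fun y : E d => f (p + y)) := hf.comp_add_left p
  exact h1.comp_smul hc

theorem cs_bdd {g : E d → ℝ} (hg : Continuous g) (hgc : HasCompactSupport g) :
    ∃ B : ℝ, 0 ≤ B ∧ ∀ y, ‖g y‖ ≤ B := by
  obtain ⟨B, hB⟩ := hg.bounded_above_of_compact_support hgc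
  exact ⟨B, (norm_nonneg _).trans (hB 0), hB⟩

theorem II_int' {χ g f : E d → ℝ} (hg : Continuous g) (hgc : HasCompactSupport g)
    (hf : Integrable f) {p : E d} (hp : 0 < χ p) :
    Integrable (fun y => g y * f (p + χ p • y)) := by
  obtain ⟨B, -, hB⟩ := cs_bdd hg hgc
  exact (aff_int hf p hp.ne').bdd_mul (c := B) hg.aestronglyMeasurable (Eventually.of_forall hB)

theorem LL_cont (a : E d →L[ℝ] ℝ) : Continuous (fun y : E d => LL a y) := by
  unfold LL
  exact continuous_const.add ((ContinuousLinearMap.smulRightL ℝ (E d) (E d) a).continuous)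

theorem JJ_meas {ρ χ : E d → ℝ} (hg : Continuous ρ)
    {Φ : E d → Al d 2} (hf : AEStronglyMeasurable Φ volume) {p : E d} (hp : 0 < χ p) :
    AEStronglyMeasurable (fun y => ρ y •
      (Φ (p + χ p • y)).compContinuousLinearMap (LL (fderiv ℝ χ p) y)) volume := by
  have h1 : AEStronglyMeasurable (fun y => Φ (p + χ p • y)) volume := by
    have hq : Measure.QuasiMeasurePreserving (fun y : E d => p + χ p • y) volume volume := by
      refine ⟨aff_meas p (χ p), ?_⟩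
      refine Measure.AbsolutelyContinuous.mk fun A hA h0 => ?_
      rw [Measure.map_apply (aff_meas p (χ p)) hA]
      have h2 : (fun y : E d => p + χ p • y) ⁻¹' A =
          (fun y : E d => χ p • y) ⁻¹' ((fun y : E d => p + y) ⁻¹' A) := rfl
      rw [h2, Measure.addHaar_preimage_smul _ hp.ne', measure_preimage_add, h0, mul_zero]
    exact hf.comp_quasiMeasurePreserving hq
  have h2 : AEStronglyMeasurable (fun y : E d => LL (fderiv ℝ χ p) y) volume :=
    (LL_cont _).aestronglyMeasurable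
  have h3 : AEStronglyMeasurable (fun y => (Φ (p + χ p • y), LL (fderiv ℝ χ p) y)) volume :=
    h1.prodMk h2
  have h4 : AEStronglyMeasurable (fun y =>
      (Φ (p + χ p • y)).compContinuousLinearMap (LL (fderiv ℝ χ p) y)) volume :=
    Continuous.comp_aestronglyMeasurable (g := fun q : Al d 2 × (E d →L[ℝ] E d) =>
      q.1.compContinuousLinearMap q.2) comp_cont h3
  exact hg.aestronglyMeasurable.smul h4

theorem JJ_int' {ρ χ : E d → ℝ} (hg : Continuous ρ) (hgc : HasCompactSupport ρ)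
    {Φ : E d → Al d 2} (hf : Integrable Φ) {p : E d} (hp : 0 < χ p) :
    Integrable (fun y => ρ y •
      (Φ (p + χ p • y)).compContinuousLinearMap (LL (fderiv ℝ χ p) y)) := by
  have h1 : Integrable (fun y => Φ (p + χ p • y)) := aff_int hf p hp.ne'
  have hn : Integrable (fun y => ‖Φ (p + χ p • y)‖) := h1.norm
  obtain ⟨l, hl⟩ : ∃ l : ℝ, l = ‖fderiv ℝ χ p‖ := ⟨_, rfl⟩
  have hl0 : 0 ≤ l := by rw [hl]; exact norm_nonneg _
  have hcs : HasCompactSupport (fun y : E d => ρ y * (1 + l * ‖y‖) ^ 2) :=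
    HasCompactSupport.mul_right (f := ρ) (f' := fun y : E d => (1 + l * ‖y‖) ^ 2) hgc
  have hcc : Continuous (fun y : E d => ρ y * (1 + l * ‖y‖) ^ 2) := by fun_prop
  obtain ⟨B, hB0, hB⟩ := cs_bdd hcc hcs
  have hdom : Integrable (fun y => B * ‖Φ (p + χ p • y)‖) := hn.const_mul B
  refine Integrable.mono' hdom (JJ_meas hg hf.aestronglyMeasurable hp)
    (Eventually.of_forall fun y => ?_)
  rw [norm_smul]
  have h2 := comp_norm (Φ (p + χ p • y)) (LL (fderiv ℝ χ p) y)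
  have h3 := LL_norm (fderiv ℝ χ p) y
  rw [← hl] at h3
  have h4 : ‖LL (fderiv ℝ χ p) y‖ ^ 2 ≤ (1 + l * ‖y‖) ^ 2 :=
    pow_le_pow_left₀ (norm_nonneg _) h3 2
  have h5 := hB y
  rw [norm_mul, Real.norm_of_nonneg (by positivity : 0 ≤ (1 + l * ‖y‖) ^ 2)] at h5
  have h6 : ‖ρ y‖ * ‖(Φ (p + χ p • y)).compContinuousLinearMap (LL (fderiv ℝ χ p) y)‖ ≤
      ‖ρ y‖ * (‖Φ (p + χ p • y)‖ * (1 + l * ‖y‖) ^ 2) :=
    mul_le_mul_of_nonneg_left (h2.trans (mul_le_mul_of_nonneg_left h4 (norm_nonneg _)))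
      (norm_nonneg _)
  have h7 : ‖ρ y‖ * (‖Φ (p + χ p • y)‖ * (1 + l * ‖y‖) ^ 2) =
      (‖ρ y‖ * (1 + l * ‖y‖) ^ 2) * ‖Φ (p + χ p • y)‖ := by ring
  rw [h7] at h6
  exact h6.trans (mul_le_mul_of_nonneg_right h5 (norm_nonneg _))

theorem JJ_apply' {ρ χ : E d → ℝ} (hg : Continuous ρ) (hgc : HasCompactSupport ρ)
    {Φ : E d → Al d 2} (hf : Integrable Φ) {p : E d} (hp : 0 < χ p) (v w : E d) :
    JJ ρ χ Φ p ![v, w] = ∫ y, ρ y *
      Φ (p + χ p • y) ![v + fderiv ℝ χ p v • y, w + fderiv ℝ χ p w • y] := by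
  unfold JJ
  let L : (Al d 2) →L[ℝ] ℝ := ContinuousAlternatingMap.apply ℝ (E d) ℝ ![v, w]
  have hL : ∀ η : Al d 2, L η = η ![v, w] := fun η => rfl
  rw [← hL, ← L.integral_comp_comm (JJ_int' hg hgc hf hp)]
  refine integral_congr_ae (Eventually.of_forall fun y => ?_)
  dsimp only
  rw [hL]
  change ρ y * ((Φ (p + χ p • y)).compContinuousLinearMap (LL (fderiv ℝ χ p) y)) ![v, w] = _
  rw [comp_pair]
  rfl

theorem JJ_apply_int' {ρ χ : E d → ℝ} (hg : Continuous ρ) (hgc : HasCompactSupport ρ)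
    {Φ : E d → Al d 2} (hf : Integrable Φ) {p : E d} (hp : 0 < χ p) (v w : E d) :
    Integrable (fun y => ρ y *
      Φ (p + χ p • y) ![v + fderiv ℝ χ p v • y, w + fderiv ℝ χ p w • y]) := by
  let L : (Al d 2) →L[ℝ] ℝ := ContinuousAlternatingMap.apply ℝ (E d) ℝ ![v, w]
  have h1 := L.integrable_comp (JJ_int' (χ := χ) hg hgc hf hp)
  refine h1.congr (Eventually.of_forall fun y => ?_)
  change ρ y * ((Φ (p + χ p • y)).compContinuousLinearMap (LL (fderiv ℝ χ p) y)) ![v, w] = _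
  rw [comp_pair]
  rfl

theorem JJ_add' {ρ χ : E d → ℝ} (hg : Continuous ρ) (hgc : HasCompactSupport ρ)
    {Φ Ψ : E d → Al d 2} (hf : Integrable Φ) (hf' : Integrable Ψ) {p : E d} (hp : 0 < χ p) :
    JJ ρ χ (fun q => Φ q + Ψ q) p = JJ ρ χ Φ p + JJ ρ χ Ψ p := by
  unfold JJ
  rw [← integral_add (JJ_int' hg hgc hf hp) (JJ_int' hg hgc hf' hp)]
  refine integral_congr_ae (Eventually.of_forall fun y => ?_)
  dsimp only
  rw [← smul_add]
  rfl

theorem ev_int {Φ : E d → Al d 2} (hf : Integrable Φ) (v w : E d) :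
    Integrable (fun q => Φ q ![v, w]) :=
  (ContinuousAlternatingMap.apply ℝ (E d) ℝ ![v, w]).integrable_comp hf

theorem JJ_expand' {ρ χ : E d → ℝ} (hg : Continuous ρ) (hgc : HasCompactSupport ρ)
    {Φ : E d → Al d 2} (hf : Integrable Φ) {p : E d} (hp : 0 < χ p) (v w : E d) :
    JJ ρ χ Φ p ![v, w] = II χ ρ (fun q => Φ q ![v, w]) p +
      fderiv ℝ χ p w * ∑ i, II χ (fun y => ρ y * y i) (fun q => Φ q ![v, bs i]) p +
      fderiv ℝ χ p v * ∑ i, II χ (fun y => ρ y * y i) (fun q => Φ q ![bs i, w]) p := by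
  rw [JJ_apply' hg hgc hf hp]
  have hgi : ∀ i : Fin d, Continuous (fun y : E d => ρ y * y i) := fun i =>
    hg.mul (EuclideanSpace.proj (𝕜 := ℝ) i).continuous
  have hgci : ∀ i : Fin d, HasCompactSupport (fun y : E d => ρ y * y i) := fun i =>
    hgc.mul_right
  have i0 := II_int' (χ := χ) hg hgc (ev_int hf v w) hp
  have i1 := fun i => II_int' (χ := χ) (hgi i) (hgci i) (ev_int hf v (bs i)) hp
  have i2 := fun i => II_int' (χ := χ) (hgi i) (hgci i) (ev_int hf (bs i) w) hp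
  have j1 : Integrable (fun y => fderiv ℝ χ p w *
      ∑ i, ρ y * y i * Φ (p + χ p • y) ![v, bs i]) :=
    (integrable_finsetSum _ (fun i _ => i1 i)).const_mul _
  have j2 : Integrable (fun y => fderiv ℝ χ p v *
      ∑ i, ρ y * y i * Φ (p + χ p • y) ![bs i, w]) :=
    (integrable_finsetSum _ (fun i _ => i2 i)).const_mul _
  have j3 : Integrable (fun y => ρ y * Φ (p + χ p • y) ![v, w] + fderiv ℝ χ p w *
      ∑ i, ρ y * y i * Φ (p + χ p • y) ![v, bs i]) := i0.add j1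
  unfold II
  rw [← integral_finsetSum _ (fun i _ => i1 i), ← integral_finsetSum _ (fun i _ => i2 i),
    ← integral_const_mul, ← integral_const_mul, ← integral_add i0 j1, ← integral_add j3 j2]
  refine integral_congr_ae (Eventually.of_forall fun y => ?_)
  dsimp only
  rw [expand2, right_sum (Φ (p + χ p • y)) v y, left_sum (Φ (p + χ p • y)) y w]
  simp only [Finset.mul_sum, mul_add]
  congr 1
  · congr 1
    refine Finset.sum_congr rfl fun i _ => ?_
    ring
  · refine Finset.sum_congr rfl fun i _ => ?_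
    ring

theorem JJ_expand_ev {ρ χ : E d → ℝ} (hχ : ContDiff ℝ ∞ χ) (hg : Continuous ρ)
    (hgc : HasCompactSupport ρ) {Φ : E d → Al d 2} (hf : Integrable Φ) {p₀ : E d}
    (hp : 0 < χ p₀) (v w : E d) :
    (fun p => JJ ρ χ Φ p ![v, w]) =ᶠ[𝓝 p₀] fun p => II χ ρ (fun q => Φ q ![v, w]) p +
      fderiv ℝ χ p w * ∑ i, II χ (fun y => ρ y * y i) (fun q => Φ q ![v, bs i]) p +
      fderiv ℝ χ p v * ∑ i, II χ (fun y => ρ y * y i) (fun q => Φ q ![bs i, w]) p := by
  filter_upwards [(isOpen_lt continuous_const hχ.continuous).mem_nhds hp] with p hp'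
  exact JJ_expand' hg hgc hf hp' v w

section ker

variable {χ : E d → ℝ}

theorem II_smooth' (hχ : ContDiff ℝ ∞ χ) {p₀ : E d} (hp : 0 < χ p₀) {g : E d → ℝ}
    (hg : ContDiff ℝ ∞ g) (hgc : HasCompactSupport g) {f : E d → ℝ} (hf : Integrable f) :
    ContDiffAt ℝ ∞ (II χ g f) p₀ :=
  (ker g χ hg hgc hχ p₀ hp).1 f hf

theorem JJ_smooth' (hχ : ContDiff ℝ ∞ χ) {p₀ : E d} (hp : 0 < χ p₀) {ρ : E d → ℝ}
    (hg : ContDiff ℝ ∞ ρ) (hgc : HasCompactSupport ρ) {Φ : E d → Al d 2}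
    (hf : Integrable Φ) : ContDiffAt ℝ ∞ (JJ ρ χ Φ) p₀ := by
  apply contDiffAt_of_eval
  intro v w
  refine ContDiffAt.congr_of_eventuallyEq ?_ (JJ_expand_ev hχ hg.continuous hgc hf hp v w)
  have hd : ContDiff ℝ ∞ (fderiv ℝ χ) := hχ.fderiv_right (by simp)
  have hdu : ∀ u : E d, ContDiffAt ℝ ∞ (fun p => fderiv ℝ χ p u) p₀ := fun u =>
    hd.contDiffAt.clm_apply contDiffAt_const
  have hgi : ∀ i : Fin d, ContDiff ℝ ∞ (fun y : E d => ρ y * y i) := fun i =>
    hg.mul (EuclideanSpace.proj (𝕜 := ℝ) i).contDiff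
  have hgci : ∀ i : Fin d, HasCompactSupport (fun y : E d => ρ y * y i) := fun i =>
    hgc.mul_right
  refine ((II_smooth' hχ hp hg hgc (ev_int hf v w)).add
    ((hdu w).mul (ContDiffAt.sum fun i _ => ?_))).add ((hdu v).mul (ContDiffAt.sum fun i _ => ?_))
  · exact II_smooth' hχ hp (hgi i) (hgci i) (ev_int hf v (bs i))
  · exact II_smooth' hχ hp (hgi i) (hgci i) (ev_int hf (bs i) w)

/-- the bounds of the scalar averages -/
theorem II_bd' (hχ : ContDiff ℝ ∞ χ) {p₀ : E d} (hp : 0 < χ p₀) {g : E d → ℝ}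
    (hg : ContDiff ℝ ∞ g) (hgc : HasCompactSupport g) : ∃ C : ℝ, 0 ≤ C ∧
    ∀ (v w : E d) (Φ : E d → Al d 2), Integrable Φ →
      |II χ g (fun q => Φ q ![v, w]) p₀| ≤ C * (‖v‖ * ‖w‖) * ∫ x, ‖Φ x‖ ∧
      ‖fderiv ℝ (II χ g (fun q => Φ q ![v, w])) p₀‖ ≤ C * (‖v‖ * ‖w‖) * ∫ x, ‖Φ x‖ := by
  obtain ⟨C, hC0, hC⟩ := (ker g χ hg hgc hχ p₀ hp).2
  refine ⟨C, hC0, ?_⟩
  intro v w Φ hi
  have hi2 : Integrable (fun q => Φ q ![v, w]) := ev_int hi v w
  obtain ⟨h1, h2⟩ := hC (fun q => Φ q ![v, w]) hi2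
  have h3 : ∫ x, |Φ x ![v, w]| ≤ (‖v‖ * ‖w‖) * ∫ x, ‖Φ x‖ := by
    rw [← integral_const_mul]
    refine integral_mono hi2.abs (hi.norm.const_mul _) fun x => ?_
    have := two_bound (Φ x) v w
    dsimp only
    linarith
  have h4 : C * ∫ x, |Φ x ![v, w]| ≤ C * (‖v‖ * ‖w‖) * ∫ x, ‖Φ x‖ := by
    calc C * ∫ x, |Φ x ![v, w]| ≤ C * ((‖v‖ * ‖w‖) * ∫ x, ‖Φ x‖) :=
          mul_le_mul_of_nonneg_left h3 hC0
      _ = _ := by ring
  exact ⟨h1.trans h4, h2.trans h4⟩

/-- the derivative of the regularization is small if the form is small in mean -/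
theorem JJ_fd' (hχ : ContDiff ℝ ∞ χ) {p₀ : E d} (hp : 0 < χ p₀) {ρ : E d → ℝ}
    (hg : ContDiff ℝ ∞ ρ) (hgc : HasCompactSupport ρ) (v w : E d) : ∃ C : ℝ, 0 ≤ C ∧
    ∀ (Φ : E d → Al d 2), Integrable Φ →
      ‖fderiv ℝ (fun p => JJ ρ χ Φ p ![v, w]) p₀‖ ≤ C * ∫ x, ‖Φ x‖ := by
  have hd : ContDiff ℝ ∞ (fderiv ℝ χ) := hχ.fderiv_right (by simp)
  have hdu : ∀ u : E d, DifferentiableAt ℝ (fun p => fderiv ℝ χ p u) p₀ := fun u =>
    (hd.contDiffAt.clm_apply contDiffAt_const).differentiableAt (by simp)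
  have hgi : ∀ i : Fin d, ContDiff ℝ ∞ (fun y : E d => ρ y * y i) := fun i =>
    hg.mul (EuclideanSpace.proj (𝕜 := ℝ) i).contDiff
  have hgci : ∀ i : Fin d, HasCompactSupport (fun y : E d => ρ y * y i) := fun i =>
    hgc.mul_right
  obtain ⟨C0, hC0, h0⟩ := II_bd' hχ hp hg hgc
  choose Ci hCi hi using fun i => II_bd' hχ hp (hgi i) (hgci i)
  set β : ℝ := fderiv ℝ χ p₀ w
  set α : ℝ := fderiv ℝ χ p₀ v
  set β' := fderiv ℝ (fun p => fderiv ℝ χ p w) p₀
  set α' := fderiv ℝ (fun p => fderiv ℝ χ p v) p₀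
  refine ⟨C0 * (‖v‖ * ‖w‖) + (|β| + ‖β'‖) * (∑ i, Ci i * (‖v‖ * ‖bs i‖)) +
    (|α| + ‖α'‖) * (∑ i, Ci i * (‖bs i‖ * ‖w‖)), ?_, ?_⟩
  · have h1 : 0 ≤ ∑ i, Ci i * (‖v‖ * ‖bs i‖) :=
      Finset.sum_nonneg fun i _ => mul_nonneg (hCi i) (by positivity)
    have h2 : 0 ≤ ∑ i, Ci i * (‖bs i‖ * ‖w‖) :=
      Finset.sum_nonneg fun i _ => mul_nonneg (hCi i) (by positivity)
    positivity
  intro Φ hint
  set m : ℝ := ∫ x, ‖Φ x‖
  rw [(JJ_expand_ev hχ hg.continuous hgc hint hp v w).fderiv_eq]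
  have d0 : HasFDerivAt (II χ ρ (fun q => Φ q ![v, w]))
      (fderiv ℝ (II χ ρ (fun q => Φ q ![v, w])) p₀) p₀ :=
    ((II_smooth' hχ hp hg hgc (ev_int hint v w)).differentiableAt
      (by simp)).hasFDerivAt
  have d1 : ∀ i : Fin d, HasFDerivAt (II χ (fun y => ρ y * y i) (fun q => Φ q ![v, bs i]))
      (fderiv ℝ (II χ (fun y => ρ y * y i) (fun q => Φ q ![v, bs i])) p₀) p₀ := fun i =>
    ((II_smooth' hχ hp (hgi i) (hgci i) (ev_int hint v (bs i))).differentiableAt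
      (by simp)).hasFDerivAt
  have d2 : ∀ i : Fin d, HasFDerivAt (II χ (fun y => ρ y * y i) (fun q => Φ q ![bs i, w]))
      (fderiv ℝ (II χ (fun y => ρ y * y i) (fun q => Φ q ![bs i, w])) p₀) p₀ := fun i =>
    ((II_smooth' hχ hp (hgi i) (hgci i) (ev_int hint (bs i) w)).differentiableAt
      (by simp)).hasFDerivAt
  have s1 := HasFDerivAt.fun_sum (u := Finset.univ) fun i _ => d1 i
  have s2 := HasFDerivAt.fun_sum (u := Finset.univ) fun i _ => d2 i
  have hD := (d0.add ((hdu w).hasFDerivAt.mul s1)).add ((hdu v).hasFDerivAt.mul s2)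
  have hD' := hD.fderiv
  have hm1 : |∑ i, II χ (fun y => ρ y * y i) (fun q => Φ q ![v, bs i]) p₀| ≤
      (∑ i, Ci i * (‖v‖ * ‖bs i‖)) * m := by
    rw [Finset.sum_mul]
    exact (Finset.abs_sum_le_sum_abs _ _).trans
      (Finset.sum_le_sum fun i _ => (hi i v (bs i) Φ hint).1)
  have hm2 : |∑ i, II χ (fun y => ρ y * y i) (fun q => Φ q ![bs i, w]) p₀| ≤
      (∑ i, Ci i * (‖bs i‖ * ‖w‖)) * m := by
    rw [Finset.sum_mul]
    exact (Finset.abs_sum_le_sum_abs _ _).trans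
      (Finset.sum_le_sum fun i _ => (hi i (bs i) w Φ hint).1)
  have hn1 : ‖∑ i, fderiv ℝ (II χ (fun y => ρ y * y i) (fun q => Φ q ![v, bs i])) p₀‖ ≤
      (∑ i, Ci i * (‖v‖ * ‖bs i‖)) * m := by
    rw [Finset.sum_mul]
    exact (norm_sum_le _ _).trans
      (Finset.sum_le_sum fun i _ => (hi i v (bs i) Φ hint).2)
  have hn2 : ‖∑ i, fderiv ℝ (II χ (fun y => ρ y * y i) (fun q => Φ q ![bs i, w])) p₀‖ ≤
      (∑ i, Ci i * (‖bs i‖ * ‖w‖)) * m := by
    rw [Finset.sum_mul]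
    exact (norm_sum_le _ _).trans
      (Finset.sum_le_sum fun i _ => (hi i (bs i) w Φ hint).2)
  have hz := (h0 v w Φ hint).2
  refine (le_of_eq (congrArg norm hD')).trans ?_
  refine (norm_add_le _ _).trans ?_
  refine (add_le_add (norm_add_le _ _) le_rfl).trans ?_
  refine (add_le_add (add_le_add le_rfl (norm_add_le _ _)) (norm_add_le _ _)).trans ?_
  rw [norm_smul, norm_smul, norm_smul, norm_smul, Real.norm_eq_abs, Real.norm_eq_abs,
    Real.norm_eq_abs, Real.norm_eq_abs]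
  have k1 := mul_le_mul_of_nonneg_left hn1 (abs_nonneg β)
  have k2 := mul_le_mul_of_nonneg_right hm1 (norm_nonneg β')
  have k3 := mul_le_mul_of_nonneg_left hn2 (abs_nonneg α)
  have k4 := mul_le_mul_of_nonneg_right hm2 (norm_nonneg α')
  calc _ ≤ C0 * (‖v‖ * ‖w‖) * m + (|β| * ((∑ i, Ci i * (‖v‖ * ‖bs i‖)) * m) +
        (∑ i, Ci i * (‖v‖ * ‖bs i‖)) * m * ‖β'‖) +
        (|α| * ((∑ i, Ci i * (‖bs i‖ * ‖w‖)) * m) +
        (∑ i, Ci i * (‖bs i‖ * ‖w‖)) * m * ‖α'‖) := by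
        refine add_le_add (add_le_add hz (add_le_add k1 k2)) (add_le_add k3 k4)
    _ = _ := by ring

end ker

end Pool.Agent.U896.SE
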