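import Pool.Agent.Y407.SY.Cap
import Pool.Agent.Y515.SY.RG1

/-!
# Bounded eccentricity: cut-off functions
-/

set_option autoImplicit false

open Set Filter Topology MeasureTheory
open scoped Manifold ContDiff

noncomputable section

namespace Pool.Agent.U896.SE

open Pool.Agent.Y501.SY (E)
open Pool.Agent.Y501.SY.Cap407 (bump comb)
open Pool.Agent.Y515.SY (Al)

/-- finite covers by small balls -/
theorem cover {d m : ℕ} (k : Set (E d)) (hk : IsCompact k)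
    (h0 : μH[(m : ℝ)] k = 0) (r0 δ : ℝ) (hr0 : 0 < r0) (hδ : 0 < δ) :
    ∃ (J : Finset ℕ) (x : ℕ → E d) (r : ℕ → ℝ), (∀ n ∈ J, x n ∈ k) ∧
      (∀ n ∈ J, 0 < r n ∧ r n ≤ 2 * r0) ∧ k ⊆ ⋃ n ∈ J, Metric.ball (x n) (r n) ∧
      ∑ n ∈ J, r n ^ m < δ := by
  rw [Measure.hausdorffMeasure_apply] at h0
  have h1 : (⨅ (t : ℕ → Set (E d)) (_ : k ⊆ ⋃ n, t n)
      (_ : ∀ n, Metric.ediam (t n) ≤ ENNReal.ofReal r0),
      ∑' n, ⨆ _ : (t n).Nonempty, Metric.ediam (t n) ^ (m : ℝ)) < ENNReal.ofReal (δ / 2) := by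
    refine lt_of_le_of_lt ?_ (ENNReal.ofReal_pos.2 (half_pos hδ))
    rw [← h0]
    exact le_iSup₂ (f := fun (r : ENNReal) (_ : 0 < r) => ⨅ (t : ℕ → Set (E d))
      (_ : k ⊆ ⋃ n, t n) (_ : ∀ n, Metric.ediam (t n) ≤ r),
      ∑' n, ⨆ _ : (t n).Nonempty, Metric.ediam (t n) ^ (m : ℝ)) (ENNReal.ofReal r0)
      (ENNReal.ofReal_pos.2 hr0)
  simp only [iInf_lt_iff] at h1
  obtain ⟨t, hcov, hdiam, hsum⟩ := h1
  have hfin : ∀ n, Metric.ediam (t n) ≠ ⊤ := fun n =>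
    ne_top_of_le_ne_top ENNReal.ofReal_ne_top (hdiam n)
  obtain ⟨D, hD⟩ : ∃ D : ℕ → ℝ, D = fun n => (Metric.ediam (t n)).toReal := ⟨_, rfl⟩
  have hD0 : ∀ n, 0 ≤ D n := by intro n; rw [hD]; exact ENNReal.toReal_nonneg
  have hDr : ∀ n, D n ≤ r0 := by
    intro n
    rw [hD]
    exact ENNReal.toReal_le_of_le_ofReal hr0.le (hdiam n)
  have hchoose : ∀ n : ℕ, ∃ (x : E d) (r : ℝ), (t n ∩ k).Nonempty →
      x ∈ t n ∧ x ∈ k ∧ D n < r ∧ r ≤ 2 * r0 ∧
        r ^ m < D n ^ m + δ / 2 / 2 / 2 ^ n := by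
    intro n
    by_cases hn : (t n ∩ k).Nonempty
    · obtain ⟨x, hxt, hxk⟩ := hn
      have e1 : ∀ᶠ r in 𝓝[>] (D n), r ^ m < D n ^ m + δ / 2 / 2 / 2 ^ n := by
        apply Filter.Eventually.filter_mono nhdsWithin_le_nhds
        exact (continuous_pow m).continuousAt.eventually_lt_const
          (lt_add_of_pos_right _ (by positivity))
      have e2 : ∀ᶠ r in 𝓝[>] (D n), r ∈ Ioo (D n) (2 * r0) :=
        Ioo_mem_nhdsGT (by linarith [hDr n])
      obtain ⟨r, hr1, hr2⟩ := (e1.and e2).exists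
      exact ⟨x, r, fun _ => ⟨hxt, hxk, hr2.1, hr2.2.le, hr1⟩⟩
    · exact ⟨0, 0, fun h => absurd h hn⟩
  choose x r hxr using hchoose
  obtain ⟨b', hb'sub, hb'fin, hb'cov⟩ := hk.elim_finite_subcover_image
    (b := {n : ℕ | (t n ∩ k).Nonempty}) (c := fun n => Metric.ball (x n) (r n))
    (fun n _ => Metric.isOpen_ball) (by
      intro y hy
      obtain ⟨n, hn⟩ := Set.mem_iUnion.1 (hcov hy)
      have hI : (t n ∩ k).Nonempty := ⟨y, hn, hy⟩
      obtain ⟨hx1, hx2, hx3, hx4, hx5⟩ := hxr n hI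
      refine Set.mem_iUnion₂.2 ⟨n, hI, ?_⟩
      rw [Metric.mem_ball]
      refine lt_of_le_of_lt ?_ hx3
      rw [hD]
      have h3 : edist y (x n) ≤ Metric.ediam (t n) := Metric.edist_le_ediam_of_mem hn hx1
      rw [← ENNReal.toReal_ofReal (dist_nonneg (x := y) (y := x n)), ← edist_dist]
      exact ENNReal.toReal_mono (hfin n) h3)
  refine ⟨hb'fin.toFinset, x, r, ?_, ?_, ?_, ?_⟩
  · intro n hn
    exact (hxr n (hb'sub (hb'fin.mem_toFinset.1 hn))).2.1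
  · intro n hn
    obtain ⟨hx1, hx2, hx3, hx4, hx5⟩ := hxr n (hb'sub (hb'fin.mem_toFinset.1 hn))
    exact ⟨(hD0 n).trans_lt hx3, hx4⟩
  · intro y hy
    obtain ⟨n, hn, hyn⟩ := Set.mem_iUnion₂.1 (hb'cov hy)
    exact Set.mem_iUnion₂.2 ⟨n, hb'fin.mem_toFinset.2 hn, hyn⟩
  · generalize hJ : hb'fin.toFinset = J
    have hJI : ∀ n ∈ J, (t n ∩ k).Nonempty := by
      intro n hn
      rw [← hJ] at hn
      exact hb'sub (hb'fin.mem_toFinset.1 hn)
    have e1 : ∑ n ∈ J, D n ^ m < δ / 2 := by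
      have e2 : ENNReal.ofReal (∑ n ∈ J, D n ^ m) < ENNReal.ofReal (δ / 2) := by
        refine lt_of_le_of_lt ?_ hsum
        rw [ENNReal.ofReal_sum_of_nonneg (fun n _ => pow_nonneg (hD0 n) _)]
        refine le_trans (Finset.sum_le_sum fun n hn => ?_) (ENNReal.sum_le_tsum J)
        have hne : (t n).Nonempty := (hJI n hn).mono Set.inter_subset_left
        rw [iSup_pos hne, ENNReal.rpow_natCast, ENNReal.ofReal_pow (hD0 n), hD]
        simp only
        rw [ENNReal.ofReal_toReal (hfin n)]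
      exact (ENNReal.ofReal_lt_ofReal_iff (half_pos hδ)).1 e2
    have e3 : ∑ n ∈ J, δ / 2 / 2 / 2 ^ n ≤ δ / 2 := by
      exact ((summable_geometric_two' (δ / 2)).sum_le_tsum J (fun n _ => by positivity)).trans
        (le_of_eq (tsum_geometric_two' (δ / 2)))
    have e4 : ∑ n ∈ J, r n ^ m ≤ ∑ n ∈ J, (D n ^ m + δ / 2 / 2 / 2 ^ n) :=
      Finset.sum_le_sum fun n hn => (hxr n (hJI n hn)).2.2.2.2.le
    rw [Finset.sum_add_distrib] at e4
    linarith

/-- A compact set has small cut-off functions relative to an integrable form. -/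
def CapR {d : ℕ} (k : Set (E d)) (Φ : E d → Al d 2) : Prop :=
  ∀ δ : ℝ, 0 < δ → ∃ η : E d → ℝ, ContDiff ℝ ∞ η ∧ (∀ x, 0 ≤ η x) ∧ (∀ x, η x ≤ 1) ∧
    (∀ᶠ x in 𝓝ˢ k, η x = 1) ∧ HasCompactSupport η ∧
    ∫ x, η x * ‖Φ x‖ < δ ∧ ∫ x, ‖fderiv ℝ η x‖ * ‖Φ x‖ < δ

theorem capR {d m : ℕ} {k : Set (E d)} (hk : IsCompact k) (h0 : μH[(m : ℝ)] k = 0)
    {Φ : E d → Al d 2} (hΦ : Integrable Φ) {ρ₀ C : ℝ} (hρ₀ : 0 < ρ₀) (hC : 0 ≤ C)
    (hM : ∀ z ∈ k, ∀ ρ : ℝ, 0 < ρ → ρ ≤ ρ₀ → ∫ x in Metric.ball z ρ, ‖Φ x‖ ≤ C * ρ ^ (m + 1)) :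
    CapR k Φ := by
  intro δ hδ
  obtain ⟨C₀, hC₀, hb⟩ := bump d
  obtain ⟨A, hA⟩ : ∃ A : ℝ, A = C₀ * (C * 2 ^ (m + 1)) := ⟨_, rfl⟩
  obtain ⟨B, hB⟩ : ∃ B : ℝ, B = C * 2 ^ (m + 1) := ⟨_, rfl⟩
  have hA0 : 0 ≤ A := by rw [hA]; positivity
  have hB0 : 0 ≤ B := by rw [hB]; positivity
  obtain ⟨J, x, r, hxk, hr, hcov, hsum⟩ := cover k hk h0 (min (ρ₀ / 4) (1 / 2))
    (δ / (A + B + 1)) (by positivity) (by positivity)
  obtain ⟨S, hS⟩ : ∃ S : ℝ, S = ∑ n ∈ J, r n ^ m := ⟨_, rfl⟩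
  rw [← hS] at hsum
  have hS0 : 0 ≤ S := by rw [hS]; exact Finset.sum_nonneg fun n hn => pow_nonneg (hr n hn).1.le _
  have hASB : A * S < δ ∧ B * S < δ := by
    have h1 : S * (A + B + 1) < δ := by rwa [lt_div_iff₀ (by positivity)] at hsum
    have h2 : 0 ≤ A * S := mul_nonneg hA0 hS0
    have h3 : 0 ≤ B * S := mul_nonneg hB0 hS0
    have h4 : S * (A + B + 1) = A * S + B * S + S := by ring
    constructor <;> linarith
  have hr1 : ∀ n ∈ J, r n ≤ 1 := by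
    intro n hn
    have := (hr n hn).2
    have h2 := min_le_right (ρ₀ / 4) (1 / 2 : ℝ)
    linarith
  have hr2 : ∀ n ∈ J, 2 * r n ≤ ρ₀ := by
    intro n hn
    have := (hr n hn).2
    have h2 := min_le_left (ρ₀ / 4) (1 / 2 : ℝ)
    linarith
  have hint : ∀ n ∈ J, ∫ y in Metric.ball (x n) (2 * r n), ‖Φ y‖ ≤ B * r n ^ m * r n := by
    intro n hn
    refine (hM (x n) (hxk n hn) (2 * r n) (by linarith [(hr n hn).1]) (hr2 n hn)).trans
      (le_of_eq ?_)
    rw [hB]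
    ring
  obtain ⟨η, h1, h2, h3, h4, h5, h6⟩ := comb C₀ hb x r J (fun n hn => (hr n hn).1)
  have hn : Integrable (fun y => ‖Φ y‖) := hΦ.norm
  have hbi : ∀ n, Integrable ((Metric.ball (x n) (2 * r n)).indicator fun y => ‖Φ y‖) :=
    fun n => hn.indicator Metric.isOpen_ball.measurableSet
  refine ⟨η, h1, h2, h3, ?_, ?_, ?_, ?_⟩
  · have hopen : IsOpen (⋃ n ∈ J, Metric.ball (x n) (r n)) :=
      isOpen_biUnion fun n _ => Metric.isOpen_ball
    filter_upwards [hopen.mem_nhdsSet.2 hcov] with y hy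
    obtain ⟨n, hn, hyn⟩ := Set.mem_iUnion₂.1 hy
    exact h4 y n hn hyn
  · refine HasCompactSupport.intro (K := ⋃ n ∈ J, Metric.closedBall (x n) (2 * r n)) ?_ ?_
    · exact J.isCompact_biUnion (fun n _ => isCompact_closedBall _ _)
    · intro y hy
      refine h5 y (fun n hn hyn => hy ?_)
      exact Set.mem_iUnion₂.2 ⟨n, hn, Metric.ball_subset_closedBall hyn⟩
  · have hle : ∀ y, η y * ‖Φ y‖ ≤
        ∑ n ∈ J, (Metric.ball (x n) (2 * r n)).indicator (fun y => ‖Φ y‖) y := by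
      intro y
      have hnn : ∀ n ∈ J, 0 ≤ (Metric.ball (x n) (2 * r n)).indicator (fun y => ‖Φ y‖) y :=
        fun n _ => indicator_nonneg (fun _ _ => norm_nonneg _) _
      by_cases hy : ∀ n ∈ J, y ∉ Metric.ball (x n) (2 * r n)
      · rw [h5 y hy, zero_mul]
        exact Finset.sum_nonneg hnn
      · push Not at hy
        obtain ⟨n, hnJ, hyn⟩ := hy
        have h7 := Finset.single_le_sum hnn hnJ
        rw [indicator_of_mem hyn] at h7
        refine le_trans ?_ h7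
        exact mul_le_of_le_one_left (norm_nonneg _) (h3 y)
    refine lt_of_le_of_lt (integral_mono_of_nonneg (Eventually.of_forall fun y =>
      mul_nonneg (h2 y) (norm_nonneg _)) (integrable_finsetSum J fun n _ => hbi n)
      (Eventually.of_forall hle)) ?_
    rw [integral_finsetSum J fun n _ => hbi n]
    refine lt_of_le_of_lt ?_ hASB.2
    rw [hS, Finset.mul_sum]
    refine Finset.sum_le_sum fun n hn => ?_
    rw [integral_indicator Metric.isOpen_ball.measurableSet]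
    refine (hint n hn).trans ?_
    have e1 : 0 ≤ B * r n ^ m := mul_nonneg hB0 (pow_nonneg (hr n hn).1.le _)
    calc B * r n ^ m * r n ≤ B * r n ^ m * 1 := mul_le_mul_of_nonneg_left (hr1 n hn) e1
      _ = B * r n ^ m := mul_one _
  · have hle : ∀ y, ‖fderiv ℝ η y‖ * ‖Φ y‖ ≤
        ∑ n ∈ J, (C₀ / r n) * (Metric.ball (x n) (2 * r n)).indicator (fun y => ‖Φ y‖) y := by
      intro y
      refine (mul_le_mul_of_nonneg_right (h6 y) (norm_nonneg _)).trans (le_of_eq ?_)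
      rw [Finset.sum_mul]
      refine Finset.sum_congr rfl fun n _ => ?_
      by_cases hy : y ∈ Metric.ball (x n) (2 * r n)
      · rw [indicator_of_mem hy, indicator_of_mem hy]
      · rw [indicator_of_notMem hy, indicator_of_notMem hy, zero_mul, mul_zero]
    refine lt_of_le_of_lt (integral_mono_of_nonneg (Eventually.of_forall fun y =>
      mul_nonneg (norm_nonneg _) (norm_nonneg _)) (integrable_finsetSum J fun n _ =>
        (hbi n).const_mul _) (Eventually.of_forall hle)) ?_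
    rw [integral_finsetSum J fun n _ => (hbi n).const_mul _]
    refine lt_of_le_of_lt ?_ hASB.1
    rw [hS, Finset.mul_sum]
    refine Finset.sum_le_sum fun n hn => ?_
    rw [integral_const_mul, integral_indicator Metric.isOpen_ball.measurableSet]
    have hrn := (hr n hn).1
    calc C₀ / r n * ∫ y in Metric.ball (x n) (2 * r n), ‖Φ y‖
        ≤ C₀ / r n * (B * r n ^ m * r n) :=
          mul_le_mul_of_nonneg_left (hint n hn) (by positivity)
      _ = A * r n ^ m := by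
          rw [hA, hB]
          field_simp

end Pool.Agent.U896.SE
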