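import Pool.Agent.U896.SE.StepE
import Pool.Agent.Y501.SY.MainT
import Pool.Agent.Y929.SY.Glob

/-!
# Bounded eccentricity: the main theorem
-/

set_option autoImplicit false

open Set Filter Topology MeasureTheory
open scoped Manifold ContDiff

noncomputable section

namespace Pool.Agent.U896.SE

open Pool.Agent.Y501.SY
open Pool.Agent.Y455.SY (A B AB BA A_surj Q Q_eq Q_sum t_PERT)
open Pool.Agent.Y929.SY (near ev_of_chart Q_add pb_apply2)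

section

variable {d : ℕ} {X : Type} [TopologicalSpace X] [ChartedSpace (E d) X]

/-- `σ` has bounded eccentricity off `K` near `x`, where it is large. -/
def EccAt (σ : Form d X 2) (J : End d X) (K : Set X) (x : X) : Prop :=
  ∃ c : ℝ, 0 < c ∧ ∃ C : ℝ, ∀ᶠ p in 𝓝 (chartAt (E d) x x), (chartAt (E d) x).symm p ∉ K →
    ∀ v : E d, c * (‖pb (chartAt (E d) x).symm σ p‖ - C) * ‖v‖ ^ 2 ≤
      pb (chartAt (E d) x).symm σ p ![v, inChart J x p v]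

variable [IsManifold (𝓡 d) ∞ X]

theorem ecc_near (hI : S_IMM) (hQ : S_QB) {m : ℕ} (F : X → E m)
    (hF : ContMDiff (𝓡 d) (𝓡 m) ∞ F)
    (hinj : ∀ x, Function.Injective (mfderiv (𝓡 d) (𝓡 m) F x))
    (J : End d X) (hJ : IsAlmostComplex J) (σ η : Form d X 2) (K : Set X) (hη : IsSmooth η)
    {s c₀ : ℝ} (hs : 0 < s) (hc₀ : 0 < c₀)
    (hpos : ∀ y, y ∉ K → ∀ v : TangentSpace (𝓡 d) y, c₀ * nm F y v ^ 2 ≤ (σ + s • η) y ![v, J y v])
    (x₀ : X) (h : EccAt σ J K x₀) :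
    ∃ ε : ℝ, 0 < ε ∧ ∀ᶠ y in 𝓝 x₀, y ∉ K → ∀ v u w : TangentSpace (𝓡 d) y,
      ε * |(σ + s • η) y ![u, w]| * nm F y v ^ 2 ≤
        (σ + s • η) y ![v, J y v] * (nm F y u * nm F y w) := by
  have htar : (chartAt (E d) x₀).target ∈ 𝓝 (chartAt (E d) x₀ x₀) :=
    (chartAt (E d) x₀).open_target.mem_nhds (mem_chart_target (E d) x₀)
  obtain ⟨c, hc, C, hE⟩ := h
  obtain ⟨N, hN, hN1, hN2⟩ := near htar
  obtain ⟨c₁, C₁, hc₁, hC₁, hnm⟩ := hI d m X F hF hinj x₀ N hN hN2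
  obtain ⟨⟨C₂, hC₂, hb⟩, -⟩ := hQ d X J hJ η hη x₀ N hN hN2
  obtain ⟨κ, hκ⟩ : ∃ κ : ℝ, κ = c₀ * c₁ ^ 2 := ⟨_, rfl⟩
  have hκ0 : 0 < κ := by rw [hκ]; positivity
  obtain ⟨M, hM⟩ : ∃ M : ℝ, M = c * |C| + s * C₂ := ⟨_, rfl⟩
  have hM0 : 0 < M := by rw [hM]; positivity
  obtain ⟨T, hT⟩ : ∃ T : ℝ, T = (1 + M / κ) / c + s * C₂ / κ := ⟨_, rfl⟩
  have hT0 : 0 < T := by rw [hT]; positivity
  refine ⟨c₁ ^ 2 / (T * C₁ ^ 2), by positivity, ev_of_chart (d := d) ?_⟩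
  filter_upwards [hN1, hE] with p hp hpE hpK v u w
  obtain ⟨v', rfl⟩ := A_surj x₀ (hN2 hp) v
  obtain ⟨u', rfl⟩ := A_surj x₀ (hN2 hp) u
  obtain ⟨w', rfl⟩ := A_surj x₀ (hN2 hp) w
  obtain ⟨a, ha⟩ : ∃ a : ℝ, a = ‖pb (chartAt (E d) x₀).symm σ p‖ := ⟨_, rfl⟩
  have ha0 : 0 ≤ a := by rw [ha]; exact norm_nonneg _
  obtain ⟨q, hq⟩ : ∃ q : ℝ, q = (σ + s • η) ((chartAt (E d) x₀).symm p) ![A x₀ p v',
    J ((chartAt (E d) x₀).symm p) (A x₀ p v')] := ⟨_, rfl⟩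
  have h1 := Q_eq (σ + s • η) J x₀ (hN2 hp) v'
  rw [Q_add] at h1
  change _ = (σ + s • η) ((chartAt (E d) x₀).symm p) ![A x₀ p v',
    J ((chartAt (E d) x₀).symm p) (A x₀ p v')] at h1
  rw [← hq] at h1 ⊢
  have hqp := hpos _ hpK (A x₀ p v')
  rw [← hq] at hqp
  have n1 : c₁ * ‖v'‖ ≤ nm F ((chartAt (E d) x₀).symm p) (A x₀ p v') := (hnm p hp v').1
  have n2 : nm F ((chartAt (E d) x₀).symm p) (A x₀ p v') ≤ C₁ * ‖v'‖ := (hnm p hp v').2
  have n3 : c₁ * ‖u'‖ ≤ nm F ((chartAt (E d) x₀).symm p) (A x₀ p u') := (hnm p hp u').1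
  have n4 : c₁ * ‖w'‖ ≤ nm F ((chartAt (E d) x₀).symm p) (A x₀ p w') := (hnm p hp w').1
  have hκq : κ * ‖v'‖ ^ 2 ≤ q := by
    refine le_trans ?_ hqp
    calc κ * ‖v'‖ ^ 2 = c₀ * (c₁ * ‖v'‖) ^ 2 := by rw [hκ]; ring
      _ ≤ _ := by gcongr
  have hq0 : 0 ≤ q := le_trans (by positivity) hκq
  have hvq : ‖v'‖ ^ 2 ≤ q / κ := by
    rw [le_div_iff₀ hκ0, mul_comm]
    exact hκq
  have e1 : c * (a - C) * ‖v'‖ ^ 2 ≤ Q σ J x₀ p v' := by
    rw [ha]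
    exact hpE hpK v'
  have e2 : |Q η J x₀ p v'| ≤ C₂ * ‖v'‖ ^ 2 := (hb p hp).2.2 v'
  have e3 : c * a * ‖v'‖ ^ 2 ≤ q * (1 + M / κ) := by
    have h2 := (abs_le.1 e2).1
    have h3 : s * -(C₂ * ‖v'‖ ^ 2) ≤ s * Q η J x₀ p v' := mul_le_mul_of_nonneg_left h2 hs.le
    have h4 : c * C * ‖v'‖ ^ 2 ≤ c * |C| * ‖v'‖ ^ 2 := by
      have := le_abs_self C
      gcongr
    have h5 : c * a * ‖v'‖ ^ 2 ≤ q + M * ‖v'‖ ^ 2 := by
      rw [hM, ← h1]
      nlinarith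
    have h6 : M * ‖v'‖ ^ 2 ≤ M * (q / κ) := mul_le_mul_of_nonneg_left hvq hM0.le
    calc c * a * ‖v'‖ ^ 2 ≤ q + M * (q / κ) := h5.trans (by linarith)
      _ = q * (1 + M / κ) := by field_simp
  have e4 : (a + s * C₂) * ‖v'‖ ^ 2 ≤ q * T := by
    have h2 : a * ‖v'‖ ^ 2 ≤ q * (1 + M / κ) / c := by
      rw [le_div_iff₀ hc]
      calc a * ‖v'‖ ^ 2 * c = c * a * ‖v'‖ ^ 2 := by ring
        _ ≤ _ := e3
    have h3 : s * C₂ * ‖v'‖ ^ 2 ≤ s * C₂ * (q / κ) :=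
      mul_le_mul_of_nonneg_left hvq (by positivity)
    calc (a + s * C₂) * ‖v'‖ ^ 2 = a * ‖v'‖ ^ 2 + s * C₂ * ‖v'‖ ^ 2 := by ring
      _ ≤ q * (1 + M / κ) / c + s * C₂ * (q / κ) := add_le_add h2 h3
      _ = q * T := by rw [hT]; field_simp
  have e5 : |(σ + s • η) ((chartAt (E d) x₀).symm p) ![A x₀ p u', A x₀ p w']| ≤
      (a + s * C₂) * (‖u'‖ * ‖w'‖) := by
    have h2 : (σ + s • η) ((chartAt (E d) x₀).symm p) ![A x₀ p u', A x₀ p w'] =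
        pb (chartAt (E d) x₀).symm σ p ![u', w'] +
          s * pb (chartAt (E d) x₀).symm η p ![u', w'] := by
      rw [pb_apply2, pb_apply2]
      rfl
    have hno : ∀ f : (E d) [⋀^Fin 2]→L[ℝ] ℝ, |f ![u', w']| ≤ ‖f‖ * (‖u'‖ * ‖w'‖) := by
      intro f
      have h2 := f.le_opNorm ![u', w']
      rw [Fin.prod_univ_two] at h2
      exact h2
    have h3 := hno (pb (chartAt (E d) x₀).symm σ p)
    rw [← ha] at h3
    have h4 : |pb (chartAt (E d) x₀).symm η p ![u', w']| ≤ C₂ * (‖u'‖ * ‖w'‖) :=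
      (hno _).trans (mul_le_mul_of_nonneg_right (hb p hp).1 (by positivity))
    rw [h2]
    refine (abs_add_le _ _).trans ?_
    rw [abs_mul, abs_of_pos hs]
    have h5 := mul_le_mul_of_nonneg_left h4 hs.le
    linarith
  calc c₁ ^ 2 / (T * C₁ ^ 2) * |(σ + s • η) ((chartAt (E d) x₀).symm p) ![A x₀ p u', A x₀ p w']| *
        nm F ((chartAt (E d) x₀).symm p) (A x₀ p v') ^ 2
      ≤ c₁ ^ 2 / (T * C₁ ^ 2) * ((a + s * C₂) * (‖u'‖ * ‖w'‖)) * (C₁ * ‖v'‖) ^ 2 := by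
        have n5 : 0 ≤ nm F ((chartAt (E d) x₀).symm p) (A x₀ p v') := norm_nonneg _
        gcongr
    _ = (((a + s * C₂) * ‖v'‖ ^ 2) / T) * ((c₁ * ‖u'‖) * (c₁ * ‖w'‖)) := by
        field_simp
    _ ≤ q * ((c₁ * ‖u'‖) * (c₁ * ‖w'‖)) := by
        refine mul_le_mul_of_nonneg_right ?_ (by positivity)
        rw [div_le_iff₀ hT0]
        exact e4
    _ ≤ _ := by
        refine mul_le_mul_of_nonneg_left ?_ hq0
        exact mul_le_mul n3 n4 (by positivity) (norm_nonneg _)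

theorem globE (hI : S_IMM) (hQ : S_QB) [CompactSpace X] {m : ℕ} (F : X → E m)
    (hF : ContMDiff (𝓡 d) (𝓡 m) ∞ F)
    (hinj : ∀ x, Function.Injective (mfderiv (𝓡 d) (𝓡 m) F x))
    (J : End d X) (hJ : IsAlmostComplex J) (σ η : Form d X 2) (K : Set X)
    (hσs : SmoothOff σ K) (hσd : IsDOff σ 0 K) (hηs : IsSmooth η) (hηd : IsClosedForm η)
    (hec : ∀ x, EccAt σ J K x)
    (hnn : ∀ x, x ∉ K → ∀ v : TangentSpace (𝓡 d) x, 0 ≤ σ x ![v, J x v])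
    (hut : ∀ x, UTAt σ J K x ∨ TamesAt η J x) : ∃ s : ℝ, 0 < s ∧ UE F J (σ + s • η) K := by
  obtain ⟨ε, hε, hpos⟩ := unif (isCompact_univ (X := X))
    (fun ε y => ∀ s : ℝ, 0 < s → s ≤ ε → y ∉ K →
      ∀ v : TangentSpace (𝓡 d) y, ε * s * nm F y v ^ 2 ≤ (σ + s • η) y ![v, J y v])
    (fun ε ε' y hle hp s hs hsε hy v => by
      refine le_trans ?_ (hp s hs (hsε.trans hle) hy v)
      exact mul_le_mul_of_nonneg_right (mul_le_mul_of_nonneg_right hle hs.le) (sq_nonneg _))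
    (fun x _ => Pool.Agent.Y929.SY.pos_near hI hQ F hF hinj J hJ σ η K hηs hnn x (hut x))
  have hpos' : ∀ y, y ∉ K → ∀ v : TangentSpace (𝓡 d) y,
      (ε * ε) * nm F y v ^ 2 ≤ (σ + ε • η) y ![v, J y v] :=
    fun y hy v => hpos y (mem_univ y) ε hε le_rfl hy v
  obtain ⟨δ, hδ, hb⟩ := unif (isCompact_univ (X := X))
    (fun δ y => y ∉ K → ∀ v u w : TangentSpace (𝓡 d) y,
      δ * |(σ + ε • η) y ![u, w]| * nm F y v ^ 2 ≤
        (σ + ε • η) y ![v, J y v] * (nm F y u * nm F y w))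
    (fun ε ε' y hle hp hy v u w => by
      refine le_trans ?_ (hp hy v u w)
      exact mul_le_mul_of_nonneg_right (mul_le_mul_of_nonneg_right hle (abs_nonneg _))
        (sq_nonneg _))
    (fun x _ => ecc_near hI hQ F hF hinj J hJ σ η K hηs hε (by positivity) hpos' x (hec x))
  refine ⟨ε, hε, ?_, ?_, ⟨ε * ε, by positivity, hpos'⟩,
    ⟨δ, hδ, fun x hx v u w => hb x (mem_univ x) hx v u w⟩⟩
  · intro U φ hU hφ hUK
    rw [pb_add, pb_smul]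
    exact (hσs U φ hU hφ hUK).add (contDiffOn_const.smul (hηs U φ hU hφ))
  · intro U φ hU hφ hUK p hp
    have h1 : DifferentiableAt ℝ (pb φ σ) p :=
      ((hσs U φ hU hφ hUK).contDiffAt (hU.mem_nhds hp)).differentiableAt (by simp)
    have h2 : DifferentiableAt ℝ (pb φ (ε • η)) p := (hηs.smul ε).diffAt hU hφ hp
    rw [pb_add, extDeriv_add h1 h2, hσd U φ hU hφ hUK p hp, pb_smul, extDeriv_smul,
      hηd U φ hU hφ p hp, pb_zero]
    simp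

theorem mainE {k₀ : ℕ} (hd : d = k₀ + 3) (hI : S_IMM) (hQ : S_QB) (hSm : S_SM)
    (hPa : S_PATCH2) [CompactSpace X] [T2Space X] {J : End d X} (hJ : IsAlmostComplex J)
    {K : Set X} (hK : IsClosed K)
    (hH : ∀ x₀ : X, μH[(k₀ : ℝ)] (chartAt (E d) x₀ '' (K ∩ (chartAt (E d) x₀).source)) = 0)
    {σ : Form d X 2} (hσ : SmoothOff σ K) (hσc : IsDOff σ 0 K) (hb : ∀ x, EccAt σ J K x)
    (hpos : ∀ x, x ∉ K → ∀ v : TangentSpace (𝓡 d) x, 0 ≤ σ x ![v, J x v])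
    (hthin : ∀ z, ¬ UTAt σ J K z →
      ThinAt2 0 0 J (connectedComponentIn {x | ¬ UTAt σ J K x} z) z)
    {U : Set X} (hU : IsOpen U) (hKU : K ⊆ U) :
    ∃ (α : Form d X 1) (η w : Form d X 2), IsSmooth α ∧ IsSmooth η ∧ IsD α η ∧ IsSmooth w ∧
      IsClosedForm w ∧ (∀ x, TamesAt w J x) ∧ ∀ x, x ∉ U → w x = (σ + η) x := by
  classical
  obtain ⟨m, F, hF, -, hFi⟩ := exists_embedding_euclidean_of_compact (I := 𝓡 d) (M := X)
  have hFc : IsClosed {x | ¬ UTAt σ J K x} :=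
    (isOpen_UTAt hI hF hFi σ J K).isClosed_compl
  have hne : ∃ v : E d, v ≠ 0 := by
    have : Nontrivial (E d) := by
      have : Nonempty (Fin d) := ⟨⟨0, by omega⟩⟩
      infer_instance
    exact exists_ne 0
  have hD2 : D2 (0 : Form d X 2) 0 J {x | ¬ UTAt σ J K x} = {x | ¬ UTAt σ J K x} := by
    apply Subset.antisymm
    · exact fun x hx => hx.1
    · intro x hx
      obtain ⟨v, hv⟩ := hne
      exact ⟨hx, v, hv, rfl, rfl⟩
  obtain ⟨α, η, hpair, hη⟩ := level2 Pool.Agent.Y484.SY.t_GEN Pool.Agent.Y108.SY.t_PERT2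
    Pool.Agent.Y925.SY.t_PLANAR hJ (σ := 0) (θ := 0) IsSmooth.zero IsSmooth.zero hFc (by
      rw [hD2]
      exact hthin)
  obtain ⟨hα, hηs, hαη, hηc⟩ := hpair.props Pool.Agent.Y484.SY.t_GEN
  obtain ⟨s, hs, hUT⟩ := globE hI hQ F hF hFi J hJ σ η K hσ hσc hηs hηc hb hpos (by
    intro x
    by_cases h : UTAt σ J K x
    · exact Or.inl h
    · exact Or.inr fun v hv => hη x h v hv rfl rfl)
  -- the regularization
  choose! W hWo hWz hW using fun z (hz : z ∈ K) =>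
    stepE (X := X) hd hI hSm hPa hF hFi hJ hU (hKU hz)
  have hfin : ∀ t : Finset X, (∀ z ∈ t, z ∈ K) → ∃ w : Form d X 2,
      UE F J w (K \ ⋃ z ∈ t, W z) ∧ ∀ x, x ∉ U → w x = (σ + s • η) x := by
    intro t
    induction t using Finset.induction_on with
    | empty =>
      intro _
      refine ⟨σ + s • η, ?_, fun x _ => rfl⟩
      have : K \ ⋃ z ∈ (∅ : Finset X), W z = K := by simp
      rw [this]
      exact hUT
    | insert a t ha ih =>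
      intro ht
      obtain ⟨w, hw, hwU⟩ := ih fun z hz => ht z (Finset.mem_insert_of_mem hz)
      have hop : IsOpen (⋃ z ∈ t, W z) :=
        isOpen_biUnion fun z hz => hWo z (ht z (Finset.mem_insert_of_mem hz))
      have hcl : IsClosed (K \ ⋃ z ∈ t, W z) := by
        rw [sdiff_eq]
        exact hK.inter hop.isClosed_compl
      obtain ⟨w', hw', hwU'⟩ := hW a (ht a (Finset.mem_insert_self a t)) _ w hcl
        (fun x₀ => measure_mono_null (image_mono (inter_subset_inter_left _ sdiff_subset))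
          (hH x₀)) hw
      refine ⟨w', ?_, fun x hx => (hwU' x hx).trans (hwU x hx)⟩
      have h1 : K \ ⋃ z ∈ insert a t, W z = (K \ ⋃ z ∈ t, W z) \ W a := by
        rw [Finset.set_biUnion_insert, union_comm, sdiff_sdiff_left]
        rfl
      rw [h1]
      exact hw'
  obtain ⟨t, htK, htc⟩ := hK.isCompact.elim_nhds_subcover W
    (fun z hz => (hWo z hz).mem_nhds (hWz z hz))
  obtain ⟨w, hw, hwU⟩ := hfin t htK
  have hempty : K \ ⋃ z ∈ t, W z = ∅ := by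
    rw [sdiff_eq_empty]
    exact htc
  rw [hempty] at hw
  obtain ⟨c, hc, hwc⟩ := hw.pos
  refine ⟨s • α, s • η, w, hα.smul s, hηs.smul s, hαη.smul s,
    fun V φ hV hφ => hw.smooth V φ hV hφ fun p _ => notMem_empty _,
    fun V φ hV hφ => hw.closed V φ hV hφ fun p _ => notMem_empty _, fun x v hv => ?_, hwU⟩
  refine lt_of_lt_of_le ?_ (hwc x (notMem_empty _) v)
  have h1 : 0 < nm F x v := by
    refine lt_of_le_of_ne (norm_nonneg _) fun h => hv ?_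
    have h2 : (mfderiv (𝓡 d) (𝓡 m) F x v : E m) = 0 := norm_eq_zero.1 h.symm
    apply hFi x
    rw [map_zero]
    exact h2
  positivity

end

end Pool.Agent.U896.SE
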