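import Pool.Agent.U896.SE.Stokes

/-!
# Bounded eccentricity: preparations for the mass bound
-/

set_option autoImplicit false

open Set Filter Topology MeasureTheory
open scoped Manifold ContDiff

noncomputable section

namespace Pool.Agent.U896.SE

open Pool.Agent.Y501.SY (E)
open Pool.Agent.Y515.SY (Al lR lR_apply)

theorem sub_right {d : ℕ} (η : Al d 2) (v w w' : E d) :
    η ![v, w] = η ![v, w'] + η ![v, w - w'] := by
  rw [← lR_apply, ← lR_apply, ← lR_apply, ← map_add]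
  congr 1
  abel

/-- positivity on the planes near a given one -/
theorem pos_near {d : ℕ} {V k : Set (E d)} (hV : IsOpen V) {s : E d → Al d 2}
    {Js : E d → (E d →L[ℝ] E d)} (hJ : ContinuousOn Js V) {c : ℝ} (hc : 0 < c)
    (hpos : ∀ p ∈ V \ k, ∀ v : E d, c * ‖s p‖ * ‖v‖ ^ 2 ≤ s p ![v, Js p v])
    {x : E d} (hx : x ∈ V) {e₀ : E d} (he₀ : ‖e₀‖ = 1) :
    ∃ R δ : ℝ, 0 < R ∧ 0 < δ ∧ δ ≤ 1 ∧ Metric.closedBall x R ⊆ V ∧
      ∀ p ∈ Metric.closedBall x R \ k, ∀ e f : E d, ‖e - e₀‖ < δ → ‖f - Js x e₀‖ < δ →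
        c / 4 * ‖s p‖ ≤ s p ![e, f] := by
  obtain ⟨S, hS⟩ : ∃ S : ℝ, S = ‖Js x‖ + 1 := ⟨_, rfl⟩
  have hS0 : 0 < S := by rw [hS]; positivity
  have hJx : ContinuousAt Js x := hJ.continuousAt (hV.mem_nhds hx)
  obtain ⟨R₁, hR₁, hR₁'⟩ := Metric.continuousAt_iff.1 hJx (min 1 (c / 20)) (by positivity)
  obtain ⟨R₂, hR₂, hR₂'⟩ := Metric.nhds_basis_closedBall.mem_iff.1 (hV.mem_nhds hx)
  refine ⟨min (R₁ / 2) R₂, min (1 / 4) (c / (20 * (S + 1))), by positivity, by positivity,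
    (min_le_left _ _).trans (by norm_num),
    (Metric.closedBall_subset_closedBall (min_le_right _ _)).trans hR₂', ?_⟩
  intro p hp e f he hf
  have hpV : p ∈ V := hR₂' (Metric.closedBall_subset_closedBall (min_le_right _ _) hp.1)
  have hd1 : dist p x < R₁ := by
    have := Metric.mem_closedBall.1 hp.1
    have h2 := min_le_left (R₁ / 2) R₂
    linarith
  have hJd := hR₁' hd1
  rw [dist_eq_norm] at hJd
  have hJd1 : ‖Js p - Js x‖ ≤ 1 := hJd.le.trans (min_le_left _ _)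
  have hJd2 : ‖Js p - Js x‖ ≤ c / 20 := hJd.le.trans (min_le_right _ _)
  have hJS : ‖Js p‖ ≤ S := by
    have h1 : ‖Js p‖ ≤ ‖Js p - Js x‖ + ‖Js x‖ := by
      have := norm_add_le (Js p - Js x) (Js x)
      rwa [sub_add_cancel] at this
    rw [hS]
    linarith
  have he1 : ‖e - e₀‖ ≤ 1 / 4 := he.le.trans (min_le_left _ _)
  have he2 : ‖e - e₀‖ ≤ c / (20 * (S + 1)) := he.le.trans (min_le_right _ _)
  have hf2 : ‖f - Js x e₀‖ ≤ c / (20 * (S + 1)) := hf.le.trans (min_le_right _ _)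
  have hn1 : ‖e‖ ≤ 5 / 4 := by
    have h1 : ‖e‖ ≤ ‖e - e₀‖ + ‖e₀‖ := by
      have := norm_add_le (e - e₀) e₀
      rwa [sub_add_cancel] at this
    linarith
  have hn2 : 3 / 4 ≤ ‖e‖ := by
    have h1 : ‖e₀‖ ≤ ‖e - e₀‖ + ‖e‖ := by
      have := norm_add_le (e₀ - e) e
      rw [sub_add_cancel, norm_sub_rev] at this
      exact this
    linarith
  have hdiff : ‖f - Js p e‖ ≤ c / 10 := by
    have h1 : f - Js p e = (f - Js x e₀) - (Js p - Js x) e₀ - Js p (e - e₀) := by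
      rw [_root_.sub_apply, map_sub]
      abel
    have h2 : ‖(Js p - Js x) e₀‖ ≤ c / 20 := by
      refine ((Js p - Js x).le_opNorm e₀).trans ?_
      rw [he₀, mul_one]
      exact hJd2
    have h3 : ‖Js p (e - e₀)‖ ≤ S * (c / (20 * (S + 1))) :=
      ((Js p).le_opNorm _).trans (mul_le_mul hJS he2 (norm_nonneg _) hS0.le)
    have h4 : c / (20 * (S + 1)) + S * (c / (20 * (S + 1))) = c / 20 := by
      field_simp
      ring
    rw [h1]
    have h5 := norm_sub_le (f - Js x e₀ - (Js p - Js x) e₀) (Js p (e - e₀))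
    have h6 := norm_sub_le (f - Js x e₀) ((Js p - Js x) e₀)
    linarith
  have t1 := sub_right (s p) e f (Js p e)
  have t2 := hpos p ⟨hpV, hp.2⟩ e
  have t3 := two_b (s p) e (f - Js p e)
  have t4 : ‖s p‖ * (‖e‖ * ‖f - Js p e‖) ≤ ‖s p‖ * (5 / 4 * (c / 10)) :=
    mul_le_mul_of_nonneg_left (mul_le_mul hn1 hdiff (norm_nonneg _) (by norm_num))
      (norm_nonneg _)
  have t5 := (abs_le.1 (t3.trans t4)).1
  have t6 : c * ‖s p‖ * (3 / 4) ^ 2 ≤ c * ‖s p‖ * ‖e‖ ^ 2 := by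
    have h7 : (3 / 4 : ℝ) ^ 2 ≤ ‖e‖ ^ 2 := pow_le_pow_left₀ (by norm_num) hn2 2
    exact mul_le_mul_of_nonneg_left h7 (by positivity)
  have t7 : 0 ≤ c * ‖s p‖ := by positivity
  rw [t1]
  nlinarith

/-- the parameters of the sides of the square -/
def side : Set (ℝ × ℝ) := {z | z.1 ∈ Icc (-1 : ℝ) 1 ∧ z.2 ∈ Icc (-1 : ℝ) 1 ∧ (|z.1| = 1 ∨ |z.2| = 1)}

theorem side_compact : IsCompact side := by
  have h1 : IsCompact (Icc (-1 : ℝ) 1 ×ˢ Icc (-1 : ℝ) 1) := isCompact_Icc.prod isCompact_Icc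
  refine h1.of_isClosed_subset ?_ (fun z hz => ⟨hz.1, hz.2.1⟩)
  have h2 : side = (Icc (-1 : ℝ) 1 ×ˢ Icc (-1 : ℝ) 1) ∩
      ({z : ℝ × ℝ | |z.1| = 1} ∪ {z : ℝ × ℝ | |z.2| = 1}) := by
    ext z
    simp only [side, mem_ofPred_eq, mem_inter_iff, mem_prod, mem_union]
    tauto
  rw [h2]
  refine (isClosed_Icc.prod isClosed_Icc).inter (IsClosed.union ?_ ?_)
  · exact isClosed_eq (by fun_prop) continuous_const
  · exact isClosed_eq (by fun_prop) continuous_const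

/-- the sides of the squares with centre near `x` avoid `k` -/
theorem side_near {d : ℕ} {V k : Set (E d)} {s : E d → Al d 2}
    (hVk : IsOpen (V \ k)) (hs : ContDiffOn ℝ ∞ s (V \ k)) {x e f : E d}
    (hsd : ∀ z ∈ side, x + z.1 • e + z.2 • f ∈ V \ k) :
    ∃ ρ M : ℝ, 0 < ρ ∧ 0 ≤ M ∧ ∀ y ∈ Metric.closedBall x ρ, ∀ z ∈ side,
      y + z.1 • e + z.2 • f ∈ V \ k ∧ ‖s (y + z.1 • e + z.2 • f)‖ ≤ M := by
  have h1 : IsClosed {y : E d | ∃ z ∈ side, y + z.1 • e + z.2 • f ∈ (V \ k)ᶜ} := by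
    refine closed_ex (C := {q : E d × (ℝ × ℝ) | q.1 + q.2.1 • e + q.2.2 • f ∈ (V \ k)ᶜ})
      side_compact ?_
    exact hVk.isClosed_compl.preimage (by fun_prop)
  have h2 : x ∈ {y : E d | ∃ z ∈ side, y + z.1 • e + z.2 • f ∈ (V \ k)ᶜ}ᶜ := by
    rintro ⟨z, hz, h⟩
    exact h (hsd z hz)
  obtain ⟨ρ, hρ, hρ'⟩ := Metric.nhds_basis_closedBall.mem_iff.1 (h1.isOpen_compl.mem_nhds h2)
  have h3 : ∀ y ∈ Metric.closedBall x ρ, ∀ z ∈ side, y + z.1 • e + z.2 • f ∈ V \ k := by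
    intro y hy z hz
    by_contra h
    exact hρ' hy ⟨z, hz, h⟩
  have h4 : IsCompact (Metric.closedBall x ρ ×ˢ side) := (isCompact_closedBall x ρ).prod side_compact
  have h5 : ContinuousOn (fun q : E d × (ℝ × ℝ) => s (q.1 + q.2.1 • e + q.2.2 • f))
      (Metric.closedBall x ρ ×ˢ side) := by
    refine hs.continuousOn.comp (by fun_prop) ?_
    rintro ⟨y, z⟩ ⟨hy, hz⟩
    exact h3 y hy z hz
  obtain ⟨M, hM⟩ := h4.exists_bound_of_continuousOn h5
  refine ⟨ρ, |M|, hρ, abs_nonneg _, fun y hy z hz => ⟨h3 y hy z hz, ?_⟩⟩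
  exact (hM (y, z) ⟨hy, hz⟩).trans (le_abs_self _)

theorem indep_ae {d m : ℕ} (hd : d = m + 3) {e f : E d} (hef : LinearIndependent ℝ ![e, f]) :
    ∀ᵐ u : E d, LinearIndependent ℝ ![u, e, f] := by
  have h1 : Submodule.span ℝ (range ![e, f]) ≠ ⊤ := by
    intro h
    have h2 : Module.finrank ℝ (Submodule.span ℝ (range ![e, f])) = 2 := by
      rw [finrank_span_eq_card hef, Fintype.card_fin]
    rw [h, finrank_top, finrank_euclideanSpace_fin] at h2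
    omega
  have h2 := Measure.addHaar_submodule (volume : Measure (E d)) _ h1
  rw [ae_iff]
  refine measure_mono_null ?_ h2
  intro u hu
  by_contra h
  exact hu (linearIndependent_finCons.2 ⟨hef, h⟩)

/-- for a suitable base point the squares over almost all segments avoid `k` -/
theorem base_point {d m : ℕ} (hd : d = m + 3) {k : Set (E d)} (hkc : IsCompact k)
    (hk : μH[(m : ℝ)] k = 0) {e f : E d} (hef : LinearIndependent ℝ ![e, f]) {x : E d} {ρ : ℝ}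
    (hρ : 0 < ρ) : ∃ y₀ ∈ Metric.ball x ρ, ∀ᵐ y : E d, ∀ t ∈ Icc (0 : ℝ) 1,
      ∀ a ∈ Icc (-1 : ℝ) 1, ∀ b ∈ Icc (-1 : ℝ) 1, y₀ + t • (y - y₀) + a • e + b • f ∉ k := by
  obtain ⟨N, hN⟩ : ∃ N : Set (E d × E d), N = {q | ∃ z ∈ Icc (0 : ℝ) 1 ×ˢ (Icc (-1 : ℝ) 1 ×ˢ
      Icc (-1 : ℝ) 1), q.1 + z.1 • q.2 + z.2.1 • e + z.2.2 • f ∈ k} := ⟨_, rfl⟩
  have hNc : IsClosed N := by
    rw [hN]
    refine closed_ex (C := {w : (E d × E d) × (ℝ × (ℝ × ℝ)) |
      w.1.1 + w.2.1 • w.1.2 + w.2.2.1 • e + w.2.2.2 • f ∈ k})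
      (isCompact_Icc.prod (isCompact_Icc.prod isCompact_Icc)) ?_
    exact hkc.isClosed.preimage (by fun_prop)
  have hNs : IsClosed (Prod.swap ⁻¹' N) := hNc.preimage continuous_swap
  have h1 : volume (Prod.swap ⁻¹' N) = 0 := by
    rw [Measure.volume_eq_prod]
    refine (Measure.measure_prod_null hNs.measurableSet).2 ?_
    filter_upwards [indep_ae hd hef] with u hu
    refine measure_mono_null ?_ (span_null3 hd hk hu)
    intro y hy
    have hy' : (y, u) ∈ N := hy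
    rw [hN] at hy'
    obtain ⟨z, -, hz⟩ := hy'
    exact ⟨z.1, z.2.1, z.2.2, hz⟩
  have h2 : volume N = 0 := by
    have h3 : MeasurePreserving (Prod.swap : E d × E d → E d × E d) volume volume := by
      rw [Measure.volume_eq_prod]
      exact Measure.measurePreserving_swap
    have h4 := h3.quasiMeasurePreserving.preimage_null h1
    exact h4
  rw [Measure.volume_eq_prod] at h2
  have h3 := (Measure.measure_prod_null hNc.measurableSet).1 h2
  have h4 : (Metric.ball x ρ ∩ {y₀ | volume (Prod.mk y₀ ⁻¹' N) = 0}).Nonempty := by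
    by_contra hne
    rw [not_nonempty_iff_eq_empty] at hne
    have h5 : Metric.ball x ρ ⊆ {y₀ | ¬ volume (Prod.mk y₀ ⁻¹' N) = 0} := by
      intro y hy h
      have : y ∈ (∅ : Set (E d)) := hne ▸ ⟨hy, h⟩
      exact this
    have h6 : volume {y₀ : E d | ¬ volume (Prod.mk y₀ ⁻¹' N) = 0} = 0 := ae_iff.1 h3
    exact (Metric.measure_ball_pos volume x hρ).ne' (measure_mono_null h5 h6)
  obtain ⟨y₀, hy₀, hy₀'⟩ := h4
  refine ⟨y₀, hy₀, ?_⟩
  have h5 : volume ((fun y : E d => y - y₀) ⁻¹' (Prod.mk y₀ ⁻¹' N)) = 0 := by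
    have h6 : (fun y : E d => y - y₀) = fun y => y + (-y₀) := by
      funext y
      exact sub_eq_add_neg y y₀
    rw [h6, measure_preimage_add_right]
    exact hy₀'
  have h6 : ∀ᵐ y : E d, y ∉ (fun y : E d => y - y₀) ⁻¹' (Prod.mk y₀ ⁻¹' N) :=
    measure_eq_zero_iff_ae_notMem.1 h5
  filter_upwards [h6] with y hy t ht a ha b hb hmem
  apply hy
  change (y₀, y - y₀) ∈ N
  rw [hN]
  exact ⟨(t, (a, b)), ⟨ht, ha, hb⟩, hmem⟩

end Pool.Agent.U896.SE
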