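import Pool.Agent.U896.SE.Mass1

/-!
# Bounded eccentricity: the mass bound
-/

set_option autoImplicit false

open Set Filter Topology MeasureTheory
open scoped Manifold ContDiff

noncomputable section

namespace Pool.Agent.U896.SE

open Pool.Agent.Y501.SY (E)
open Pool.Agent.Y515.SY (Al lR lR_apply lL lL_apply self_zero)

theorem smul_pair {d : ℕ} (η : Al d 2) (r : ℝ) (v w : E d) :
    η ![r • v, r • w] = r ^ 2 * η ![v, w] := by
  rw [← lL_apply, map_smul, lL_apply, ← lR_apply, map_smul, lR_apply, smul_eq_mul, smul_eq_mul]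
  ring

theorem dep_zero {d : ℕ} {e f : E d} (h : ¬ LinearIndependent ℝ ![e, f]) (η : Al d 2) :
    η ![e, f] = 0 := by
  rw [LinearIndependent.pair_iff] at h
  push Not at h
  obtain ⟨a, b, hab, hne⟩ := h
  by_cases ha : a = 0
  · have hb : b ≠ 0 := hne ha
    rw [ha, zero_smul, zero_add] at hab
    have hf : f = 0 := (smul_eq_zero.1 hab).resolve_left hb
    rw [hf, ← lR_apply, map_zero]
  · have he : e = (-(b / a)) • f := by
      have h1 : a • e = -(b • f) := eq_neg_of_add_eq_zero_left hab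
      have h2 : e = a⁻¹ • (a • e) := by rw [smul_smul, inv_mul_cancel₀ ha, one_smul]
      rw [h2, h1, smul_neg, smul_smul, neg_smul]
      congr 2
      ring
    rw [he, ← lL_apply, map_smul, lL_apply, self_zero, smul_zero]

/-- averaging a bound of the areas of the squares -/
theorem fub {d : ℕ} {Φ : E d → Al d 2} (hΦ : StronglyMeasurable Φ) {e f : E d} {x : E d}
    {ρ₂ : ℝ} (hρ₂ : 0 < ρ₂) {B : ℝ} (hB : 0 ≤ B)
    (hG : ∀ᵐ y : E d, y ∈ Metric.ball x ρ₂ → ∫⁻ z in sq, ‖Φ (y + z 0 • e + z 1 • f)‖ₑ ≤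
      ENNReal.ofReal B) :
    ∃ C : ℝ, 0 ≤ C ∧ ∀ z₀ ∈ Metric.ball x (ρ₂ / 2), ∀ ρ : ℝ, 0 < ρ → ρ ≤ ρ₂ / 2 →
      ∫⁻ p in Metric.ball z₀ (ρ / 2), ‖Φ p‖ₑ ≤ ENNReal.ofReal (C * (ρ ^ d / ρ ^ 2)) := by
  obtain ⟨om, hom⟩ : ∃ om : ℝ, om = (volume (Metric.ball (0 : E d) 1)).toReal := ⟨_, rfl⟩
  have hom0 : 0 ≤ om := by rw [hom]; exact ENNReal.toReal_nonneg
  obtain ⟨κ, hκ⟩ : ∃ κ : ℝ, κ = 1 / (2 * (‖e‖ + ‖f‖) + ρ₂ + 1) := ⟨_, rfl⟩
  have hden : 0 < 2 * (‖e‖ + ‖f‖) + ρ₂ + 1 := by positivity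
  have hκ0 : 0 < κ := by rw [hκ]; positivity
  have hκ1 : κ * (2 * (‖e‖ + ‖f‖) + ρ₂ + 1) = 1 := by rw [hκ]; field_simp
  refine ⟨B * om / (4 * κ ^ 2), by positivity, ?_⟩
  intro z₀ hz₀ ρ hρ hρ2
  have hsub : Metric.ball z₀ ρ ⊆ Metric.ball x ρ₂ := by
    intro y hy
    rw [Metric.mem_ball] at hy hz₀ ⊢
    have := dist_triangle y z₀ x
    linarith
  set τ : ℝ := κ * ρ with hτ
  have hτ0 : 0 < τ := by positivity
  have hef0 : 0 ≤ ‖e‖ + ‖f‖ := by positivity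
  have hτ1 : τ ≤ 1 := by
    have h1 : κ * ρ ≤ κ * (2 * (‖e‖ + ‖f‖) + ρ₂ + 1) := by
      apply mul_le_mul_of_nonneg_left _ hκ0.le
      linarith
    rw [hκ1] at h1
    exact h1
  have hτ2 : τ * (‖e‖ + ‖f‖) ≤ ρ / 2 := by
    have h1 : κ * (‖e‖ + ‖f‖) ≤ 1 / 2 := by
      have h2 : κ * (2 * (‖e‖ + ‖f‖)) ≤ κ * (2 * (‖e‖ + ‖f‖) + ρ₂ + 1) := by
        apply mul_le_mul_of_nonneg_left _ hκ0.le
        linarith
      rw [hκ1] at h2
      linarith
    have h3 : τ * (‖e‖ + ‖f‖) = (κ * (‖e‖ + ‖f‖)) * ρ := by rw [hτ]; ring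
    rw [h3]
    nlinarith
  -- the measurable function of two variables
  have hmeas : Measurable (fun q : E d × (Fin 2 → ℝ) => ‖Φ (q.1 + q.2 0 • e + q.2 1 • f)‖ₑ) := by
    have h1 : Measurable (fun q : E d × (Fin 2 → ℝ) => q.1 + q.2 0 • e + q.2 1 • f) := by
      have : Continuous (fun q : E d × (Fin 2 → ℝ) => q.1 + q.2 0 • e + q.2 1 • f) := by
        fun_prop
      exact this.measurable
    exact (hΦ.comp_measurable h1).enorm
  have hupper : ∫⁻ y in Metric.ball z₀ ρ, ∫⁻ z in sq, ‖Φ (y + z 0 • e + z 1 • f)‖ₑ ≤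
      ENNReal.ofReal B * ENNReal.ofReal (ρ ^ d * om) := by
    have h1 : volume (Metric.ball z₀ ρ) = ENNReal.ofReal (ρ ^ d * om) := by
      rw [Measure.addHaar_ball_of_pos volume z₀ hρ, finrank_euclideanSpace_fin,
        ENNReal.ofReal_mul (by positivity), hom, ENNReal.ofReal_toReal measure_ball_lt_top.ne]
    rw [← h1, ← setLIntegral_const]
    refine setLIntegral_mono_ae aemeasurable_const ?_
    filter_upwards [hG] with y hy hyb
    exact hy (hsub hyb)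
  have hlower : ENNReal.ofReal ((2 * τ) ^ 2) * ∫⁻ p in Metric.ball z₀ (ρ / 2), ‖Φ p‖ₑ ≤
      ∫⁻ y in Metric.ball z₀ ρ, ∫⁻ z in sq, ‖Φ (y + z 0 • e + z 1 • f)‖ₑ := by
    rw [lintegral_lintegral_swap hmeas.aemeasurable]
    have hsq : Icc (fun _ : Fin 2 => -τ) (fun _ => τ) ⊆ sq := by
      intro z hz
      exact ⟨fun i => le_trans (by linarith) (hz.1 i), fun i => (hz.2 i).trans hτ1⟩
    have hvol : volume (Icc (fun _ : Fin 2 => -τ) (fun _ => τ)) = ENNReal.ofReal ((2 * τ) ^ 2) := by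
      rw [Real.volume_Icc_pi, Fin.prod_univ_two, ← ENNReal.ofReal_mul (by linarith)]
      congr 1
      ring
    rw [← hvol, mul_comm, ← setLIntegral_const]
    refine le_trans ?_ (lintegral_mono_set hsq)
    refine setLIntegral_mono' measurableSet_Icc fun z hz => ?_
    set w : E d := z 0 • e + z 1 • f with hw
    have hz0 : |z 0| ≤ τ := abs_le.2 ⟨hz.1 0, hz.2 0⟩
    have hz1 : |z 1| ≤ τ := abs_le.2 ⟨hz.1 1, hz.2 1⟩
    have hwn : ‖w‖ ≤ ρ / 2 := by
      have h1 := norm_add_le (z 0 • e) (z 1 • f)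
      rw [norm_smul, norm_smul, Real.norm_eq_abs, Real.norm_eq_abs] at h1
      have h2 : |z 0| * ‖e‖ ≤ τ * ‖e‖ := mul_le_mul_of_nonneg_right hz0 (norm_nonneg _)
      have h3 : |z 1| * ‖f‖ ≤ τ * ‖f‖ := mul_le_mul_of_nonneg_right hz1 (norm_nonneg _)
      have h4 : τ * ‖e‖ + τ * ‖f‖ = τ * (‖e‖ + ‖f‖) := by ring
      linarith
    have h1 : ∫⁻ y in Metric.ball z₀ ρ, ‖Φ (y + z 0 • e + z 1 • f)‖ₑ =
        ∫⁻ y in Metric.ball (z₀ + w) ρ, ‖Φ y‖ₑ := by
      rw [← lintegral_indicator Metric.isOpen_ball.measurableSet,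
        ← lintegral_indicator Metric.isOpen_ball.measurableSet]
      have h2 := lintegral_add_right_eq_self (μ := (volume : Measure (E d)))
        ((Metric.ball (z₀ + w) ρ).indicator fun y => ‖Φ y‖ₑ) w
      rw [← h2]
      congr 1
      funext y
      have h3 : y + z 0 • e + z 1 • f = y + w := by rw [hw, add_assoc]
      by_cases hy : y ∈ Metric.ball z₀ ρ
      · rw [indicator_of_mem hy, indicator_of_mem, h3]
        rw [Metric.mem_ball, dist_add_right]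
        exact hy
      · rw [indicator_of_notMem hy, indicator_of_notMem]
        rw [Metric.mem_ball, dist_add_right]
        exact hy
    rw [h1]
    refine lintegral_mono_set ?_
    intro y hy
    rw [Metric.mem_ball] at hy ⊢
    have h2 : dist z₀ (z₀ + w) = ‖w‖ := by
      rw [dist_eq_norm, sub_add_cancel_left, norm_neg]
    have h3 := dist_triangle y z₀ (z₀ + w)
    linarith
  have h1 := hlower.trans hupper
  have h2 : 0 < (2 * τ) ^ 2 := by positivity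
  have h3 : ∫⁻ p in Metric.ball z₀ (ρ / 2), ‖Φ p‖ₑ ≤
      (ENNReal.ofReal B * ENNReal.ofReal (ρ ^ d * om)) / ENNReal.ofReal ((2 * τ) ^ 2) := by
    rw [ENNReal.le_div_iff_mul_le (Or.inl (ENNReal.ofReal_pos.2 h2).ne')
      (Or.inl ENNReal.ofReal_ne_top), mul_comm]
    exact h1
  refine h3.trans (le_of_eq ?_)
  rw [← ENNReal.ofReal_mul hB, ← ENNReal.ofReal_div_of_pos h2]
  congr 1
  rw [hτ]
  field_simp
  ring

end Pool.Agent.U896.SE
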