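import Pool.Agent.U896.SE.Mass2
import Pool.Agent.Y515.SY.RG2
import Pool.Agent.Y515.SY.RG3

/-!
# Bounded eccentricity: the mass bound
-/

set_option autoImplicit false

open Set Filter Topology MeasureTheory
open scoped Manifold ContDiff

noncomputable section

namespace Pool.Agent.U896.SE

open Pool.Agent.Y501.SY (E)
open Pool.Agent.Y515.SY (Al lR lR_apply lL lL_apply self_zero ind_sm)

/-- A closed two-form of bounded eccentricity off a set of `m`-dimensional Hausdorff measure zero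
in dimension `m + 3` has mass at most `C ρ ^ (m + 1)` on the balls of radius `ρ`. -/
theorem mass {d m : ℕ} (hd : d = m + 3) {V k : Set (E d)} (hV : IsOpen V) (hVk : IsOpen (V \ k))
    (hk : ∀ Q : Set (E d), IsCompact Q → Q ⊆ V → μH[(m : ℝ)] (k ∩ Q) = 0) {s : E d → Al d 2}
    (hs : ContDiffOn ℝ ∞ s (V \ k)) (hcl : ∀ p ∈ V \ k, extDeriv s p = 0)
    {Js : E d → (E d →L[ℝ] E d)} (hJ : ContinuousOn Js V) {c : ℝ} (hc : 0 < c)
    (hpos : ∀ p ∈ V \ k, ∀ v : E d, c * ‖s p‖ * ‖v‖ ^ 2 ≤ s p ![v, Js p v])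
    {x : E d} (hx : x ∈ V) :
    ∃ ρ₀ C : ℝ, 0 < ρ₀ ∧ 0 ≤ C ∧ Metric.closedBall x (2 * ρ₀) ⊆ V ∧
      ∀ z ∈ Metric.ball x ρ₀, ∀ ρ : ℝ, 0 < ρ → ρ ≤ ρ₀ →
        ∫⁻ p in Metric.ball z ρ \ k, ‖s p‖ₑ ≤ ENNReal.ofReal (C * ρ ^ (m + 1)) := by
  obtain ⟨e₀, he₀⟩ : ∃ e₀ : E d, ‖e₀‖ = 1 :=
    ⟨EuclideanSpace.single ⟨0, by omega⟩ 1, by simp⟩
  obtain ⟨R, δ, hR, hδ, -, hRV, hplane⟩ := pos_near (k := k) hV hJ hc hpos hx he₀
  obtain ⟨f₀, hf₀⟩ : ∃ f₀, f₀ = Js x e₀ := ⟨_, rfl⟩
  rw [← hf₀] at hplane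
  obtain ⟨r, hr⟩ : ∃ r : ℝ, r = R / (4 * (‖e₀‖ + ‖f₀‖ + 2 * δ)) := ⟨_, rfl⟩
  have hden : 0 < ‖e₀‖ + ‖f₀‖ + 2 * δ := by positivity
  have hr0 : 0 < r := by rw [hr]; positivity
  have hr1 : r * (‖e₀‖ + ‖f₀‖ + 2 * δ) = R / 4 := by
    rw [hr]
    field_simp
  set kc : Set (E d) := k ∩ Metric.closedBall x R with hkc
  have hkcc : IsCompact kc := by
    have h1 : kc = Metric.closedBall x R \ (V \ k) := by
      ext p
      simp only [hkc, mem_inter_iff, Set.mem_sdiff, not_and, not_not]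
      exact ⟨fun h => ⟨h.2, fun _ => h.1⟩, fun h => ⟨h.2 (hRV h.1), h.1⟩⟩
    rw [h1]
    exact (isCompact_closedBall x R).diff hVk
  have hkc0 : μH[(m : ℝ)] kc = 0 := hk _ (isCompact_closedBall x R) hRV
  obtain ⟨e, f, he, hf, hsq⟩ := exists_square hd hkcc hkc0 x (r • e₀) (r • f₀)
    (δ := r * δ) (by positivity)
  have hen : ‖e‖ ≤ r * (‖e₀‖ + δ) := by
    have h1 : ‖e‖ ≤ ‖e - r • e₀‖ + ‖r • e₀‖ := by
      have := norm_add_le (e - r • e₀) (r • e₀)
      rwa [sub_add_cancel] at this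
    rw [norm_smul, Real.norm_of_nonneg hr0.le] at h1
    linarith
  have hfn : ‖f‖ ≤ r * (‖f₀‖ + δ) := by
    have h1 : ‖f‖ ≤ ‖f - r • f₀‖ + ‖r • f₀‖ := by
      have := norm_add_le (f - r • f₀) (r • f₀)
      rwa [sub_add_cancel] at this
    rw [norm_smul, Real.norm_of_nonneg hr0.le] at h1
    linarith
  have hefn : ‖e‖ + ‖f‖ ≤ R / 4 := by
    rw [← hr1]
    linarith
  have hpl : ∀ p ∈ Metric.closedBall x R \ k, r ^ 2 * (c / 4) * ‖s p‖ ≤ s p ![e, f] := by
    intro p hp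
    have h1 : ∀ v v₀ : E d, ‖v - r • v₀‖ < r * δ → ‖r⁻¹ • v - v₀‖ < δ := by
      intro v v₀ hv
      have h2 : r⁻¹ • v - v₀ = r⁻¹ • (v - r • v₀) := by
        rw [smul_sub, smul_smul, inv_mul_cancel₀ hr0.ne', one_smul]
      rw [h2, norm_smul, norm_inv, Real.norm_of_nonneg hr0.le, inv_mul_lt_iff₀ hr0]
      exact hv
    have h2 := hplane p hp _ _ (h1 e e₀ he) (h1 f f₀ hf)
    have h3 : s p ![e, f] = r ^ 2 * s p ![r⁻¹ • e, r⁻¹ • f] := by
      rw [← smul_pair, smul_smul, smul_smul, mul_inv_cancel₀ hr0.ne', one_smul, one_smul]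
    rw [h3, mul_assoc]
    exact mul_le_mul_of_nonneg_left h2 (by positivity)
  obtain ⟨c₁, hc₁⟩ : ∃ c₁ : ℝ, c₁ = r ^ 2 * (c / 4) := ⟨_, rfl⟩
  have hc₁0 : 0 < c₁ := by rw [hc₁]; positivity
  rw [← hc₁] at hpl
  have habs : ∀ {y : E d} {a b : ℝ}, y ∈ Metric.closedBall x (R / 2) → a ∈ Icc (-1 : ℝ) 1 →
      b ∈ Icc (-1 : ℝ) 1 → y + a • e + b • f ∈ Metric.closedBall x R := by
    intro y a b hy ha hb
    rw [Metric.mem_closedBall, dist_eq_norm] at hy ⊢
    have h1 : y + a • e + b • f - x = (y - x) + (a • e + b • f) := by abel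
    have h2 : ‖a • e‖ ≤ ‖e‖ := by
      rw [norm_smul, Real.norm_eq_abs]
      have : |a| ≤ 1 := abs_le.2 ha
      nlinarith [norm_nonneg e]
    have h3 : ‖b • f‖ ≤ ‖f‖ := by
      rw [norm_smul, Real.norm_eq_abs]
      have : |b| ≤ 1 := abs_le.2 hb
      nlinarith [norm_nonneg f]
    rw [h1]
    have h4 := norm_add_le (y - x) (a • e + b • f)
    have h5 := norm_add_le (a • e) (b • f)
    linarith
  obtain ⟨ρ₁, M, hρ₁, hM, hside⟩ := side_near hVk hs (x := x) (e := e) (f := f) (by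
    rintro ⟨a, b⟩ ⟨ha, hb, hab⟩
    have h1 : x + a • e + b • f ∈ Metric.closedBall x R :=
      habs (Metric.mem_closedBall_self (by positivity)) ha hb
    refine ⟨hRV h1, fun h2 => ?_⟩
    exact hsq a ha b hb hab ⟨h2, h1⟩)
  obtain ⟨ρ₂, hρ₂⟩ : ∃ ρ₂ : ℝ, ρ₂ = min ρ₁ (R / 4) := ⟨_, rfl⟩
  have hρ₂0 : 0 < ρ₂ := by rw [hρ₂]; positivity
  have hρ₂1 : ρ₂ ≤ ρ₁ := by rw [hρ₂]; exact min_le_left _ _
  have hρ₂R : ρ₂ ≤ R / 4 := by rw [hρ₂]; exact min_le_right _ _
  set Φ : E d → Al d 2 := (V \ k).indicator s with hΦ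
  have hΦm : StronglyMeasurable Φ := ind_sm hVk hs
  -- the bound on the squares
  have hG : ∃ B : ℝ, 0 ≤ B ∧ ∀ᵐ y : E d, y ∈ Metric.ball x ρ₂ →
      ∫⁻ z in sq, ‖Φ (y + z 0 • e + z 1 • f)‖ₑ ≤ ENNReal.ofReal B := by
    by_cases hind : LinearIndependent ℝ ![e, f]
    · obtain ⟨y₀, hy₀, hae⟩ := base_point hd hkcc hkc0 hind (x := x) hρ₂0
      refine ⟨c₁⁻¹ * (|HH s e f y₀| + 4 * M * (2 * ρ₂) * (‖e‖ + ‖f‖)), by positivity, ?_⟩
      filter_upwards [hae] with y hy hyb
      have hseg : ∀ t ∈ Icc (0 : ℝ) 1, y₀ + t • (y - y₀) ∈ Metric.ball x ρ₂ := by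
        intro t ht
        have h1 := (convex_ball x ρ₂).add_smul_sub_mem hy₀ hyb ht
        exact h1
      have hin : ∀ t ∈ Icc (0 : ℝ) 1, ∀ a ∈ Icc (-1 : ℝ) 1, ∀ b ∈ Icc (-1 : ℝ) 1,
          y₀ + t • (y - y₀) + a • e + b • f ∈ V \ k := by
        intro t ht a ha b hb
        have h1 : y₀ + t • (y - y₀) + a • e + b • f ∈ Metric.closedBall x R := by
          refine habs ?_ ha hb
          exact Metric.closedBall_subset_closedBall (by linarith)
            (Metric.ball_subset_closedBall (hseg t ht))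
        exact ⟨hRV h1, fun h2 => hy t ht a ha b hb ⟨h2, h1⟩⟩
      have hst := stokes hVk hs hcl (y := y₀) (u := y - y₀) (e := e) (f := f) hin (M := M)
        (fun t ht a ha b hb hab => (hside _ (Metric.closedBall_subset_closedBall hρ₂1
          (Metric.ball_subset_closedBall (hseg t ht))) (a, b) ⟨ha, hb, hab⟩).2)
      rw [add_sub_cancel] at hst
      have hyy : ‖y - y₀‖ ≤ 2 * ρ₂ := by
        rw [← dist_eq_norm]
        have h1 := dist_triangle_right y y₀ x
        rw [Metric.mem_ball] at hyb hy₀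
        linarith
      have hH : HH s e f y ≤ |HH s e f y₀| + 4 * M * (2 * ρ₂) * (‖e‖ + ‖f‖) := by
        have h1 := (abs_le.1 hst).2
        have h2 : 4 * M * ‖y - y₀‖ * (‖e‖ + ‖f‖) ≤ 4 * M * (2 * ρ₂) * (‖e‖ + ‖f‖) := by
          gcongr
        have h3 := le_abs_self (HH s e f y₀)
        linarith
      have hin1 : ∀ z ∈ sq, y + z 0 • e + z 1 • f ∈ Metric.closedBall x R \ k := by
        intro z hz
        obtain ⟨h0, h1⟩ := mem_sq hz
        have h2 := hin 1 (by simp) _ h0 _ h1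
        rw [one_smul, add_sub_cancel] at h2
        refine ⟨?_, h2.2⟩
        refine habs ?_ h0 h1
        exact Metric.closedBall_subset_closedBall (by linarith)
          (Metric.ball_subset_closedBall hyb)
      have hcont : ContinuousOn (fun z : Fin 2 → ℝ => s (y + z 0 • e + z 1 • f) ![e, f]) sq := by
        have h1 : ContinuousOn (fun z : Fin 2 → ℝ => s (y + z 0 • e + z 1 • f)) sq := by
          refine hs.continuousOn.comp (by fun_prop) fun z hz => ?_
          exact ⟨hRV (hin1 z hz).1, (hin1 z hz).2⟩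
        exact (ContinuousAlternatingMap.apply ℝ (E d) ℝ ![e, f]).continuous.comp_continuousOn h1
      have hint : IntegrableOn (fun z : Fin 2 → ℝ => s (y + z 0 • e + z 1 • f) ![e, f]) sq :=
        hcont.integrableOn_compact isCompact_Icc
      have hnn : 0 ≤ᵐ[volume.restrict sq] fun z : Fin 2 → ℝ => s (y + z 0 • e + z 1 • f) ![e, f] := by
        refine (ae_restrict_iff' measurableSet_Icc).2 (Eventually.of_forall fun z hz => ?_)
        have h1 := hpl _ (hin1 z hz)
        have h2 : 0 ≤ c₁ * ‖s (y + z 0 • e + z 1 • f)‖ := by positivity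
        exact h2.trans h1
      have h5 : ENNReal.ofReal (HH s e f y) =
          ∫⁻ z in sq, ENNReal.ofReal (s (y + z 0 • e + z 1 • f) ![e, f]) :=
        ofReal_integral_eq_lintegral_ofReal hint hnn
      calc ∫⁻ z in sq, ‖Φ (y + z 0 • e + z 1 • f)‖ₑ
          ≤ ∫⁻ z in sq, ENNReal.ofReal c₁⁻¹ *
            ENNReal.ofReal (s (y + z 0 • e + z 1 • f) ![e, f]) := by
            refine setLIntegral_mono' measurableSet_Icc fun z hz => ?_
            have h1 := hin1 z hz
            have h2 := hpl _ h1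
            have h3 : Φ (y + z 0 • e + z 1 • f) = s (y + z 0 • e + z 1 • f) :=
              indicator_of_mem (show _ ∈ V \ k from ⟨hRV h1.1, h1.2⟩) s
            rw [h3, ← ofReal_norm, ← ENNReal.ofReal_mul (by positivity)]
            apply ENNReal.ofReal_le_ofReal
            rw [inv_mul_eq_div, le_div_iff₀ hc₁0, mul_comm]
            exact h2
        _ = ENNReal.ofReal c₁⁻¹ * ENNReal.ofReal (HH s e f y) := by
            rw [lintegral_const_mul' _ _ ENNReal.ofReal_ne_top, h5]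
        _ ≤ ENNReal.ofReal c₁⁻¹ *
            ENNReal.ofReal (|HH s e f y₀| + 4 * M * (2 * ρ₂) * (‖e‖ + ‖f‖)) := by
            gcongr
        _ = _ := by
            rw [← ENNReal.ofReal_mul (by positivity)]
    · refine ⟨0, le_rfl, Eventually.of_forall fun y hyb => ?_⟩
      refine le_of_eq_of_le ?_ zero_le
      refine setLIntegral_eq_zero measurableSet_Icc fun z hz => ?_
      obtain ⟨h0, h1⟩ := mem_sq hz
      have h2 : y + z 0 • e + z 1 • f ∈ Metric.closedBall x R := by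
        refine habs ?_ h0 h1
        exact Metric.closedBall_subset_closedBall (by linarith)
          (Metric.ball_subset_closedBall hyb)
      change ‖Φ (y + z 0 • e + z 1 • f)‖ₑ = 0
      suffices h9 : Φ (y + z 0 • e + z 1 • f) = 0 by
        rw [← ofReal_norm, h9, norm_zero, ENNReal.ofReal_zero]
      by_cases h3 : y + z 0 • e + z 1 • f ∈ k
      · exact indicator_of_notMem (fun h => h.2 h3) s
      · have h4 := hpl _ ⟨h2, h3⟩
        rw [dep_zero hind] at h4
        have h5 : ‖s (y + z 0 • e + z 1 • f)‖ = 0 := by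
          have h6 := norm_nonneg (s (y + z 0 • e + z 1 • f))
          nlinarith
        rw [hΦ, indicator_of_mem (show _ ∈ V \ k from ⟨hRV h2, h3⟩)]
        exact norm_eq_zero.1 h5
  obtain ⟨B, hB, hG⟩ := hG
  obtain ⟨C, hC, hfub⟩ := fub hΦm hρ₂0 hB hG
  refine ⟨ρ₂ / 4, 2 ^ d / 2 ^ 2 * C, by positivity, by positivity, ?_, ?_⟩
  · exact (Metric.closedBall_subset_closedBall (by linarith)).trans hRV
  · intro z hz ρ hρ hρ2
    have h1 := hfub z (Metric.ball_subset_ball (by linarith) hz) (2 * ρ) (by linarith)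
      (by linarith)
    have h2 : 2 * ρ / 2 = ρ := by ring
    rw [h2] at h1
    have h3 : ∫⁻ p in Metric.ball z ρ \ k, ‖s p‖ₑ ≤ ∫⁻ p in Metric.ball z ρ, ‖Φ p‖ₑ := by
      have h4 : MeasurableSet (Metric.ball z ρ \ k) := by
        have h5 : Metric.ball z ρ \ k = Metric.ball z ρ ∩ (V \ k) := by
          ext p
          simp only [Set.mem_sdiff, mem_inter_iff]
          constructor
          · rintro ⟨ha, hb⟩
            refine ⟨ha, hRV ?_, hb⟩
            rw [Metric.mem_ball] at ha hz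
            rw [Metric.mem_closedBall]
            have := dist_triangle p z x
            linarith
          · rintro ⟨ha, -, hb⟩
            exact ⟨ha, hb⟩
        rw [h5]
        exact Metric.isOpen_ball.measurableSet.inter hVk.measurableSet
      refine le_trans (le_of_eq ?_) (lintegral_mono_set (sdiff_subset (t := k)))
      refine setLIntegral_congr_fun h4 fun p hp => ?_
      have h5 : p ∈ V \ k := by
        refine ⟨hRV ?_, hp.2⟩
        have ha := hp.1
        rw [Metric.mem_ball] at ha hz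
        rw [Metric.mem_closedBall]
        have := dist_triangle p z x
        linarith
      simp only [hΦ, indicator_of_mem h5]
    refine h3.trans (h1.trans (le_of_eq ?_))
    congr 1
    rw [hd]
    field_simp
    ring

end Pool.Agent.U896.SE
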