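import Pool.Agent.Y501.SY.StmR

/-!
# Bounded eccentricity: projections of small sets

Sets of `m`-dimensional Hausdorff measure zero in dimension `m + j` are not met by almost all
translates of a compact piece of a `j`-dimensional space.
-/

set_option autoImplicit false

open Set Filter Topology MeasureTheory
open scoped Manifold ContDiff

noncomputable section

namespace Pool.Agent.U896.SE

open Pool.Agent.Y501.SY (E)

theorem proj_null {d m : ℕ} (L : E d →L[ℝ] (Fin m → ℝ)) (hL : Function.Surjective L)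
    {k : Set (E d)} (hk : μH[(m : ℝ)] k = 0) : volume (L ⁻¹' (L '' k)) = 0 := by
  have h1 : μH[(m : ℝ)] (L '' k) = 0 := by
    have h2 := L.lipschitz.hausdorffMeasure_image_le (d := (m : ℝ)) (Nat.cast_nonneg m) k
    rw [hk, mul_zero] at h2
    exact le_antisymm h2 zero_le
  have h2 : volume (L '' k) = 0 := by
    have h3 : (μH[(Fintype.card (Fin m) : ℝ)] : Measure (Fin m → ℝ)) = volume :=
      hausdorffMeasure_pi_real
    rw [Fintype.card_fin] at h3
    rw [← h3]
    exact h1
  obtain ⟨c, -, hc⟩ := (L : E d →ₗ[ℝ] (Fin m → ℝ)).exists_map_addHaar_eq_smul_addHaar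
    (volume : Measure (E d)) (volume : Measure (Fin m → ℝ)) hL
  have h4 : (volume : Measure (E d)) (L ⁻¹' (L '' k)) ≤
      ((volume : Measure (E d)).map L) (L '' k) :=
    Measure.le_map_apply L.continuous.measurable.aemeasurable _
  refine le_antisymm (h4.trans ?_) zero_le
  have h5 : (volume : Measure (E d)).map L = c • volume := hc
  rw [h5, Measure.smul_apply, h2, smul_zero]

theorem exists_proj {d m j : ℕ} (hd : d = m + j) (u : Fin j → E d)
    (hu : LinearIndependent ℝ u) :
    ∃ L : E d →L[ℝ] (Fin m → ℝ), Function.Surjective L ∧ ∀ i, L (u i) = 0 := by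
  set S : Submodule ℝ (E d) := Submodule.span ℝ (range u) with hS
  have h1 : Module.finrank ℝ S = j := by
    rw [hS, finrank_span_eq_card hu, Fintype.card_fin]
  have h2 : Module.finrank ℝ (E d ⧸ S) = m := by
    have h3 := Submodule.finrank_quotient_add_finrank S
    rw [h1, finrank_euclideanSpace_fin] at h3
    omega
  have h4 : Module.finrank ℝ (Fin m → ℝ) = m := Module.finrank_fin_fun ℝ
  let e : (E d ⧸ S) ≃ₗ[ℝ] (Fin m → ℝ) := LinearEquiv.ofFinrankEq _ _ (h2.trans h4.symm)
  let L₀ : E d →ₗ[ℝ] (Fin m → ℝ) := e.toLinearMap.comp S.mkQ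
  refine ⟨LinearMap.toContinuousLinearMap L₀, ?_, ?_⟩
  · change Function.Surjective L₀
    exact e.surjective.comp S.mkQ_surjective
  · intro i
    change e (S.mkQ (u i)) = 0
    have h5 : S.mkQ (u i) = 0 := by
      rw [Submodule.mkQ_apply, Submodule.Quotient.mk_eq_zero]
      exact Submodule.subset_span ⟨i, rfl⟩
    rw [h5, map_zero]

/-- the points from which the span of `j` independent vectors meets `k` are a null set -/
theorem span_null {d m j : ℕ} (hd : d = m + j) (u : Fin j → E d) (hu : LinearIndependent ℝ u)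
    {k : Set (E d)} (hk : μH[(m : ℝ)] k = 0) :
    volume {y : E d | ∃ t : Fin j → ℝ, y + ∑ i, t i • u i ∈ k} = 0 := by
  obtain ⟨L, hL, hLu⟩ := exists_proj hd u hu
  refine measure_mono_null ?_ (proj_null L hL hk)
  rintro y ⟨t, ht⟩
  refine ⟨_, ht, ?_⟩
  rw [map_add, map_sum]
  have h1 : ∑ i, L (t i • u i) = 0 := by
    refine Finset.sum_eq_zero fun i _ => ?_
    rw [map_smul, hLu, smul_zero]
  rw [h1, add_zero]

theorem haus_mono {d : ℕ} {a b : ℝ} (hab : a ≤ b) {k : Set (E d)} (hk : μH[a] k = 0) :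
    μH[b] k = 0 :=
  le_antisymm ((Measure.hausdorffMeasure_mono hab k).trans (le_of_eq hk)) zero_le

/-- one vector -/
theorem span_null1 {d m : ℕ} (hd : d = m + 3) {k : Set (E d)} (hk : μH[(m : ℝ)] k = 0)
    {v : E d} (hv : v ≠ 0) : volume {y : E d | ∃ b : ℝ, y + b • v ∈ k} = 0 := by
  have h1 : μH[((m + 2 : ℕ) : ℝ)] k = 0 := haus_mono (by push_cast; linarith) hk
  have h2 : LinearIndependent ℝ (fun _ : Fin 1 => v) := by
    rw [linearIndependent_unique_iff]
    exact hv
  refine measure_mono_null ?_ (span_null (j := 1) (by omega) (fun _ : Fin 1 => v) h2 h1)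
  rintro y ⟨b, hb⟩
  exact ⟨fun _ => b, by simpa using hb⟩

/-- three vectors -/
theorem span_null3 {d m : ℕ} (hd : d = m + 3) {k : Set (E d)} (hk : μH[(m : ℝ)] k = 0)
    {u e f : E d} (hu : LinearIndependent ℝ ![u, e, f]) :
    volume {y : E d | ∃ t a b : ℝ, y + t • u + a • e + b • f ∈ k} = 0 := by
  refine measure_mono_null ?_ (span_null (j := 3) hd ![u, e, f] hu hk)
  rintro y ⟨t, a, b, hb⟩
  refine ⟨![t, a, b], ?_⟩
  rw [Fin.sum_univ_three]
  convert hb using 1
  simp [add_assoc]

end Pool.Agent.U896.SE
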