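import Pool.Agent.U896.SE.Clos
import Pool.Agent.U896.SE.Mass3
import Pool.Agent.Y515.SY.RG

/-!
# Bounded eccentricity: regularization in a chart
-/

set_option autoImplicit false

open Set Filter Topology MeasureTheory
open scoped Manifold ContDiff

noncomputable section

namespace Pool.Agent.U896.SE

open Pool.Agent.Y501.SY (E Moll S_SM)
open Pool.Agent.Y515.SY hiding aff_null

variable {d : ℕ}

/-- uniform mass bounds on compact sets -/
theorem mass_unif {m : ℕ} (hd : d = m + 3) {V k : Set (E d)} (hV : IsOpen V)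
    (hVk : IsOpen (V \ k))
    (hk : ∀ Q : Set (E d), IsCompact Q → Q ⊆ V → μH[(m : ℝ)] (k ∩ Q) = 0) {s : E d → Al d 2}
    (hs : ContDiffOn ℝ ∞ s (V \ k)) (hcl : ∀ p ∈ V \ k, extDeriv s p = 0)
    {Js : E d → (E d →L[ℝ] E d)} (hJ : ContinuousOn Js V) {c : ℝ} (hc : 0 < c)
    (hpos : ∀ p ∈ V \ k, ∀ v : E d, c * ‖s p‖ * ‖v‖ ^ 2 ≤ s p ![v, Js p v])
    {Q : Set (E d)} (hQ : IsCompact Q) (hQV : Q ⊆ V) :
    ∃ ρ₀ C : ℝ, 0 < ρ₀ ∧ 0 ≤ C ∧ ∫⁻ p in Q \ k, ‖s p‖ₑ < ⊤ ∧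
      ∀ z ∈ Q, ∀ ρ : ℝ, 0 < ρ → ρ ≤ ρ₀ →
        ∫⁻ p in Metric.ball z ρ \ k, ‖s p‖ₑ ≤ ENNReal.ofReal (C * ρ ^ (m + 1)) := by
  refine hQ.induction_on (p := fun S => ∃ ρ₀ C : ℝ, 0 < ρ₀ ∧ 0 ≤ C ∧
      ∫⁻ p in S \ k, ‖s p‖ₑ < ⊤ ∧ ∀ z ∈ S, ∀ ρ : ℝ, 0 < ρ → ρ ≤ ρ₀ →
        ∫⁻ p in Metric.ball z ρ \ k, ‖s p‖ₑ ≤ ENNReal.ofReal (C * ρ ^ (m + 1))) ?_ ?_ ?_ ?_
  · refine ⟨1, 0, one_pos, le_rfl, ?_, fun z hz => absurd hz (notMem_empty z)⟩
    rw [empty_sdiff, Measure.restrict_empty, lintegral_zero_measure]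
    exact ENNReal.zero_lt_top
  · rintro S T hST ⟨ρ₀, C, h1, h2, h3, h4⟩
    exact ⟨ρ₀, C, h1, h2, (lintegral_mono_set (sdiff_subset_sdiff_left hST)).trans_lt h3,
      fun z hz => h4 z (hST hz)⟩
  · rintro S T ⟨ρ₀, C, h1, h2, h3, h4⟩ ⟨ρ₀', C', h1', h2', h3', h4'⟩
    refine ⟨min ρ₀ ρ₀', C + C', lt_min h1 h1', by positivity, ?_, ?_⟩
    · rw [union_sdiff_distrib]
      exact (lintegral_union_le _ _ _).trans_lt (ENNReal.add_lt_top.2 ⟨h3, h3'⟩)
    · rintro z (hz | hz) ρ hρ hρ0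
      · refine (h4 z hz ρ hρ (hρ0.trans (min_le_left _ _))).trans ?_
        apply ENNReal.ofReal_le_ofReal
        have : 0 ≤ C' * ρ ^ (m + 1) := by positivity
        nlinarith
      · refine (h4' z hz ρ hρ (hρ0.trans (min_le_right _ _))).trans ?_
        apply ENNReal.ofReal_le_ofReal
        have : 0 ≤ C * ρ ^ (m + 1) := by positivity
        nlinarith
  · intro x hx
    obtain ⟨ρ₀, C, h1, h2, h3, h4⟩ := mass hd hV hVk hk hs hcl hJ hc hpos (hQV hx)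
    refine ⟨Metric.ball x ρ₀, mem_nhdsWithin_of_mem_nhds (Metric.ball_mem_nhds x h1), ρ₀, C, h1,
      h2, ?_, h4⟩
    exact (h4 x (Metric.mem_ball_self h1) ρ₀ h1 le_rfl).trans_lt ENNReal.ofReal_lt_top

/-- the truncated form is integrable -/
theorem trunc_int {V k Q : Set (E d)} (hVk : IsOpen (V \ k)) {s : E d → Al d 2}
    (hs : ContDiffOn ℝ ∞ s (V \ k)) (hQ : IsCompact Q) (hQV : Q ⊆ V)
    (hfin : ∫⁻ p in Q \ k, ‖s p‖ₑ < ⊤) : Integrable ((Q \ k).indicator s) := by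
  have h1 : Q \ k = Q ∩ (V \ k) := by
    ext p
    simp only [Set.mem_sdiff, mem_inter_iff]
    exact ⟨fun h => ⟨h.1, hQV h.1, h.2⟩, fun h => ⟨h.1, h.2.2⟩⟩
  have hm : MeasurableSet (Q \ k) := by
    rw [h1]
    exact hQ.measurableSet.inter hVk.measurableSet
  have h2 : (Q \ k).indicator s = Q.indicator ((V \ k).indicator s) := by
    rw [h1, ← Set.indicator_indicator]
  refine ⟨?_, ?_⟩
  · rw [h2]
    exact ((ind_sm hVk hs).indicator hQ.measurableSet).aestronglyMeasurable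
  · rw [hasFiniteIntegral_iff_enorm]
    have h3 : ∀ p, ‖(Q \ k).indicator s p‖ₑ = (Q \ k).indicator (fun p => ‖s p‖ₑ) p := by
      intro p
      by_cases hp : p ∈ Q \ k
      · rw [indicator_of_mem hp, indicator_of_mem hp]
      · rw [indicator_of_notMem hp, indicator_of_notMem hp, ← ofReal_norm, norm_zero,
          ENNReal.ofReal_zero]
    simp_rw [h3]
    rw [lintegral_indicator hm]
    exact hfin

/-- the mass bound for the truncated form -/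
theorem trunc_mass {V k Q : Set (E d)} (hVk : IsOpen (V \ k)) {s : E d → Al d 2}
    (hs : ContDiffOn ℝ ∞ s (V \ k)) (hQ : IsCompact Q) (hQV : Q ⊆ V)
    {z : E d} {ρ B : ℝ} (hB : 0 ≤ B)
    (h : ∫⁻ p in Metric.ball z ρ \ k, ‖s p‖ₑ ≤ ENNReal.ofReal B) :
    ∫ p in Metric.ball z ρ, ‖(Q \ k).indicator s p‖ ≤ B := by
  have h1 : Q \ k = Q ∩ (V \ k) := by
    ext p
    simp only [Set.mem_sdiff, mem_inter_iff]
    exact ⟨fun h => ⟨h.1, hQV h.1, h.2⟩, fun h => ⟨h.1, h.2.2⟩⟩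
  have hm : MeasurableSet (Q \ k) := by
    rw [h1]
    exact hQ.measurableSet.inter hVk.measurableSet
  have h2 : (Q \ k).indicator s = Q.indicator ((V \ k).indicator s) := by
    rw [h1, ← Set.indicator_indicator]
  have hsm : AEStronglyMeasurable ((Q \ k).indicator s) (volume.restrict (Metric.ball z ρ)) := by
    rw [h2]
    exact ((ind_sm hVk hs).indicator hQ.measurableSet).aestronglyMeasurable
  have h3 : ∀ p, ‖(Q \ k).indicator s p‖ₑ = (Q \ k).indicator (fun p => ‖s p‖ₑ) p := by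
    intro p
    by_cases hp : p ∈ Q \ k
    · rw [indicator_of_mem hp, indicator_of_mem hp]
    · rw [indicator_of_notMem hp, indicator_of_notMem hp, ← ofReal_norm, norm_zero,
        ENNReal.ofReal_zero]
  rw [integral_norm_eq_lintegral_enorm hsm]
  refine ENNReal.toReal_le_of_le_ofReal hB ?_
  simp_rw [h3]
  rw [lintegral_indicator hm, Measure.restrict_restrict hm]
  refine le_trans (lintegral_mono_set ?_) h
  rintro p ⟨hp1, hp2⟩
  exact ⟨hp2, hp1.2⟩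

/-- the lower bound for the average -/
theorem JJ_lb' {ρ χ : E d → ℝ} {ε : ℝ} (hε : 0 ≤ ε) (hρ : Moll ε ρ) {Φ : E d → Al d 2}
    (hΦ : Integrable Φ) {Js : E d → (E d →L[ℝ] E d)} {c D S δ₁ : ℝ} (hc : 0 < c)
    (hδ₁ : 0 ≤ δ₁) {p : E d} (hp : 0 < χ p) (hS : ‖Js p‖ ≤ S) (hD : ‖fderiv ℝ χ p‖ ≤ D)
    (hκ : δ₁ + 2 * D * S * ε ≤ c / 2)
    (hpos : ∀ᵐ y : E d, ‖y‖ < ε → ‖Js p - Js (p + χ p • y)‖ ≤ δ₁ ∧
      ∀ v : E d, c * (1 + ‖Φ (p + χ p • y)‖) * ‖v‖ ^ 2 ≤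
        Φ (p + χ p • y) ![v, Js (p + χ p • y) v]) (v : E d) :
    c / 2 / (1 + D * ε) ^ 2 * (1 + ‖JJ ρ χ Φ p‖) * ‖v‖ ^ 2 ≤ JJ ρ χ Φ p ![v, Js p v] := by
  have hD0 : 0 ≤ D := (norm_nonneg _).trans hD
  have hS0 : 0 ≤ S := (norm_nonneg _).trans hS
  have hρc := moll_cs hρ
  have hρi := moll_int hρ
  have hn : Integrable (fun q => ‖Φ q‖) := hΦ.norm
  have hA : Integrable (fun y => ρ y * ‖Φ (p + χ p • y)‖) :=
    II_int' (χ := χ) hρ.smooth.continuous hρc hn hp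
  obtain ⟨A, hAd⟩ : ∃ A : ℝ, A = ∫ y, ρ y * ‖Φ (p + χ p • y)‖ := ⟨_, rfl⟩
  have hA0 : 0 ≤ A := by
    rw [hAd]
    exact integral_nonneg fun y => mul_nonneg (hρ.nonneg y) (norm_nonneg _)
  -- upper bound of the norm
  have hup : ‖JJ ρ χ Φ p‖ ≤ (1 + D * ε) ^ 2 * A := by
    rw [hAd, ← integral_const_mul]
    unfold JJ
    refine norm_integral_le_of_norm_le (hA.const_mul _) (Eventually.of_forall fun y => ?_)
    rw [norm_smul, Real.norm_of_nonneg (hρ.nonneg y)]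
    by_cases hy : ε ≤ ‖y‖
    · rw [hρ.supp y hy, zero_mul, zero_mul, mul_zero]
    · rw [not_le] at hy
      have h2 : ‖LL (fderiv ℝ χ p) y‖ ≤ 1 + D * ε := by
        refine (LL_norm _ _).trans ?_
        have := mul_le_mul hD hy.le (norm_nonneg _) hD0
        linarith
      have h3 := comp_norm (Φ (p + χ p • y)) (LL (fderiv ℝ χ p) y)
      have h4 : ‖LL (fderiv ℝ χ p) y‖ ^ 2 ≤ (1 + D * ε) ^ 2 :=
        pow_le_pow_left₀ (norm_nonneg _) h2 2
      calc ρ y * ‖(Φ (p + χ p • y)).compContinuousLinearMap (LL (fderiv ℝ χ p) y)‖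
          ≤ ρ y * (‖Φ (p + χ p • y)‖ * (1 + D * ε) ^ 2) :=
            mul_le_mul_of_nonneg_left (h3.trans (mul_le_mul_of_nonneg_left h4 (norm_nonneg _)))
              (hρ.nonneg y)
        _ = _ := by ring
  -- lower bound
  have hlow : c / 2 * (1 + A) * ‖v‖ ^ 2 ≤ JJ ρ χ Φ p ![v, Js p v] := by
    rw [JJ_apply' hρ.smooth.continuous hρc hΦ hp]
    have h1 : ∫ y, (c / 2 * ‖v‖ ^ 2) * (ρ y + ρ y * ‖Φ (p + χ p • y)‖) =
        c / 2 * (1 + A) * ‖v‖ ^ 2 := by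
      rw [integral_const_mul, integral_add hρi hA, hρ.int, ← hAd]
      ring
    rw [← h1]
    refine integral_mono_ae ((hρi.add hA).const_mul _)
      (JJ_apply_int' hρ.smooth.continuous hρc hΦ hp v (Js p v)) ?_
    filter_upwards [hpos] with y hy
    by_cases hyε : ε ≤ ‖y‖
    · rw [hρ.supp y hyε]
      simp
    rw [not_le] at hyε
    obtain ⟨hJ, hpo⟩ := hy hyε
    have hgoal : c / 2 * ‖v‖ ^ 2 * (1 + ‖Φ (p + χ p • y)‖) ≤
        Φ (p + χ p • y) ![v + fderiv ℝ χ p v • y, Js p v + fderiv ℝ χ p (Js p v) • y] := by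
      set q : E d := p + χ p • y with hq
      rw [expand2]
      set w : E d := Js p v with hw
      have hwn : ‖w‖ ≤ S * ‖v‖ :=
        ((Js p).le_opNorm v).trans (mul_le_mul_of_nonneg_right hS (norm_nonneg _))
      have hv0 : 0 ≤ ‖v‖ := norm_nonneg v
      obtain ⟨b, hb⟩ : ∃ b, b = ‖Φ q‖ := ⟨_, rfl⟩
      have hb0 : 0 ≤ b := by rw [hb]; exact norm_nonneg _
      have hε0 : 0 ≤ ε := (norm_nonneg y).trans hyε.le
      have t1 := sub_right (Φ q) v w (Js q v)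
      have t2 := hpo v
      rw [← hb] at t2 ⊢
      have t3 : |Φ q ![v, w - Js q v]| ≤ b * δ₁ * ‖v‖ ^ 2 := by
        have h2 : ‖w - Js q v‖ ≤ δ₁ * ‖v‖ := by
          have h3 := (Js p - Js q).le_opNorm v
          rw [_root_.sub_apply] at h3
          exact h3.trans (mul_le_mul_of_nonneg_right hJ hv0)
        refine (two_bound _ _ _).trans ?_
        rw [← hb]
        calc b * (‖v‖ * ‖w - Js q v‖) ≤ b * (‖v‖ * (δ₁ * ‖v‖)) :=
              mul_le_mul_of_nonneg_left (mul_le_mul_of_nonneg_left h2 hv0) hb0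
          _ = _ := by ring
      have hdv : |fderiv ℝ χ p v| ≤ D * ‖v‖ := by
        have h3 := (fderiv ℝ χ p).le_opNorm v
        rw [Real.norm_eq_abs] at h3
        exact h3.trans (mul_le_mul_of_nonneg_right hD hv0)
      have hdw : |fderiv ℝ χ p w| ≤ D * (S * ‖v‖) := by
        have h3 := (fderiv ℝ χ p).le_opNorm w
        rw [Real.norm_eq_abs] at h3
        exact h3.trans (mul_le_mul hD hwn (norm_nonneg _) hD0)
      have t4 : |fderiv ℝ χ p w * Φ q ![v, y]| ≤ b * D * ε * S * ‖v‖ ^ 2 := by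
        rw [abs_mul]
        have h4 : |Φ q ![v, y]| ≤ b * (‖v‖ * ε) := by
          refine (two_bound _ _ _).trans ?_
          rw [← hb]
          exact mul_le_mul_of_nonneg_left (mul_le_mul_of_nonneg_left hyε.le hv0) hb0
        calc _ ≤ D * (S * ‖v‖) * (b * (‖v‖ * ε)) :=
              mul_le_mul hdw h4 (abs_nonneg _) (by positivity)
          _ = _ := by ring
      have t5 : |fderiv ℝ χ p v * Φ q ![y, w]| ≤ b * D * ε * S * ‖v‖ ^ 2 := by
        rw [abs_mul]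
        have h4 : |Φ q ![y, w]| ≤ b * (ε * (S * ‖v‖)) := by
          refine (two_bound _ _ _).trans ?_
          rw [← hb]
          exact mul_le_mul_of_nonneg_left (mul_le_mul hyε.le hwn (norm_nonneg _) hε0) hb0
        calc _ ≤ D * ‖v‖ * (b * (ε * (S * ‖v‖))) :=
              mul_le_mul hdv h4 (abs_nonneg _) (by positivity)
          _ = _ := by ring
      have a3 := (abs_le.1 t3).1
      have a4 := (abs_le.1 t4).1
      have a5 := (abs_le.1 t5).1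
      have hκ2 : (δ₁ + 2 * D * S * ε) * (b * ‖v‖ ^ 2) ≤ c / 2 * (b * ‖v‖ ^ 2) :=
        mul_le_mul_of_nonneg_right hκ (by positivity)
      have hcv : 0 ≤ c / 2 * ‖v‖ ^ 2 := by positivity
      rw [t1]
      nlinarith
    have h3 := mul_le_mul_of_nonneg_left hgoal (hρ.nonneg y)
    refine le_trans (le_of_eq ?_) h3
    ring
  refine le_trans ?_ hlow
  have hl : 0 < 1 + D * ε := by
    have : 0 ≤ D * ε := mul_nonneg hD0 hε
    linarith
  have hl2 : 1 ≤ (1 + D * ε) ^ 2 := by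
    have : 0 ≤ D * ε := mul_nonneg hD0 hε
    nlinarith
  refine mul_le_mul_of_nonneg_right ?_ (sq_nonneg _)
  have h5 : 1 + ‖JJ ρ χ Φ p‖ ≤ (1 + D * ε) ^ 2 * (1 + A) := by nlinarith
  calc c / 2 / (1 + D * ε) ^ 2 * (1 + ‖JJ ρ χ Φ p‖)
      ≤ c / 2 / (1 + D * ε) ^ 2 * ((1 + D * ε) ^ 2 * (1 + A)) :=
        mul_le_mul_of_nonneg_left h5 (by positivity)
    _ = c / 2 * (1 + A) := by field_simp

end Pool.Agent.U896.SE
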