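import Pool.Agent.U896.SE.Reg

/-!
# Bounded eccentricity: regularization in a chart
-/

set_option autoImplicit false

open Set Filter Topology MeasureTheory
open scoped Manifold ContDiff

noncomputable section

namespace Pool.Agent.U896.SE

open Pool.Agent.Y501.SY (E Moll S_SM)
open Pool.Agent.Y515.SY hiding aff_null

variable {d : ℕ}

theorem reg {m : ℕ} (hd : d = m + 3) (hSM : S_SM) {V k : Set (E d)} {χ : E d → ℝ}
    {s : E d → Al d 2} {Js : E d → (E d →L[ℝ] E d)} {c : ℝ} (hc : 0 < c) (hV : IsOpen V)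
    (hVk : IsOpen (V \ k))
    (hk : ∀ Q : Set (E d), IsCompact Q → Q ⊆ V → μH[(m : ℝ)] (k ∩ Q) = 0)
    (hχ : ContDiff ℝ ∞ χ) (hχ0 : ∀ p, 0 ≤ χ p) (hχc : HasCompactSupport χ) (hχV : tsupport χ ⊆ V)
    (hs : ContDiffOn ℝ ∞ s (V \ k)) (hcl : ∀ p ∈ V \ k, extDeriv s p = 0)
    (hJ : ContinuousOn Js V)
    (hpos : ∀ p ∈ V \ k, ∀ v : E d, c * (1 + ‖s p‖) * ‖v‖ ^ 2 ≤ s p ![v, Js p v]) :
    ∃ (s' : E d → Al d 2) (c' : ℝ), 0 < c' ∧
      ContDiffOn ℝ ∞ s' (V \ (k ∩ {p | χ p = 0})) ∧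
      (∀ p ∈ V \ (k ∩ {p | χ p = 0}), extDeriv s' p = 0) ∧
      (∀ p, χ p = 0 → s' p = s p) ∧
      ∀ p ∈ V \ (k ∩ {p | χ p = 0}), ∀ v : E d,
        c' * (1 + ‖s' p‖) * ‖v‖ ^ 2 ≤ s' p ![v, Js p v] := by
  obtain ⟨r, hr, hrV⟩ := IsCompact.exists_cthickening_subset_open hχc hV hχV
  set Q : Set (E d) := Metric.cthickening r (tsupport χ) with hQdef
  have hQ : IsCompact Q := IsCompact.cthickening hχc
  have hNQ : tsupport χ ⊆ Q := Metric.self_subset_cthickening _
  have hGQ : Metric.thickening r (tsupport χ) ⊆ Q := Metric.thickening_subset_cthickening _ _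
  set G : Set (E d) := Metric.thickening r (tsupport χ) with hGdef
  have hGo : IsOpen G := Metric.isOpen_thickening
  have hNG : tsupport χ ⊆ G := Metric.self_subset_thickening hr _
  have hpos' : ∀ p ∈ V \ k, ∀ v : E d, c * ‖s p‖ * ‖v‖ ^ 2 ≤ s p ![v, Js p v] := by
    intro p hp v
    refine le_trans ?_ (hpos p hp v)
    have h1 : 0 ≤ c * ‖v‖ ^ 2 := by positivity
    nlinarith
  obtain ⟨ρ₀, C, hρ₀, hC, hfin, hmass⟩ := mass_unif hd hV hVk hk hs hcl hJ hc hpos' hQ hrV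
  set Φ : E d → Al d 2 := (Q \ k).indicator s with hΦ
  have hΦi : Integrable Φ := trunc_int hVk hs hQ hrV hfin
  have hΦs : ∀ p ∈ Q \ k, Φ p = s p := fun p hp => indicator_of_mem hp s
  set kc : Set (E d) := k ∩ Q with hkc
  have hkcc : IsCompact kc := by
    have h1 : kc = Q \ (V \ k) := by
      ext p
      simp only [hkc, mem_inter_iff, Set.mem_sdiff, not_and, not_not]
      exact ⟨fun h => ⟨h.2, fun _ => h.1⟩, fun h => ⟨h.2 (hrV h.1), h.1⟩⟩
    rw [h1]
    exact hQ.diff hVk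
  have hkc0 : μH[(m : ℝ)] kc = 0 := hk Q hQ hrV
  have hkcv : volume kc = 0 := by
    have h1 : μH[(d : ℝ)] kc = 0 := haus_mono (by rw [hd]; push_cast; linarith) hkc0
    have h2 : (μH[(Module.finrank ℝ (E d) : ℝ)] : Measure (E d)) kc = 0 := by
      rw [finrank_euclideanSpace_fin]
      exact h1
    have h3 : (volume : Measure (E d)) ≪ μH[(Module.finrank ℝ (E d) : ℝ)] :=
      Measure.absolutelyContinuous_isAddHaarMeasure _ _
    exact h3 h2
  have hcap : CapR kc Φ := capR hkcc hkc0 hΦi hρ₀ hC (fun z hz ρ hρ hρ0 =>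
    trunc_mass hVk hs hQ hrV (by positivity) (hmass z hz.2 ρ hρ hρ0))
  have hGk : IsOpen (G \ k) := by
    have h1 : G \ k = G ∩ (V \ k) := by
      ext p
      simp only [Set.mem_sdiff, mem_inter_iff]
      exact ⟨fun h => ⟨h.1, hrV (hGQ h.1), h.2⟩, fun h => ⟨h.1, h.2.2⟩⟩
    rw [h1]
    exact hGo.inter hVk
  have hΦev : ∀ p ∈ G \ k, Φ =ᶠ[𝓝 p] s := by
    intro p hp
    filter_upwards [hGk.mem_nhds hp] with q hq
    exact hΦs q ⟨hGQ hq.1, hq.2⟩
  have hGV : G \ k ⊆ V \ k := fun p hp => ⟨hrV (hGQ hp.1), hp.2⟩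
  have hΦsm : ContDiffOn ℝ ∞ Φ (G \ k) := by
    intro p hp
    exact ((hs.contDiffAt (hVk.mem_nhds (hGV hp))).congr_of_eventuallyEq
      (hΦev p hp)).contDiffWithinAt
  have hΦcl : ∀ p ∈ G \ k, extDeriv Φ p = 0 := by
    intro p hp
    rw [(hΦev p hp).extDeriv_eq]
    exact hcl p (hGV hp)
  -- constants
  obtain ⟨S₀, hS₀⟩ := hQ.exists_bound_of_continuousOn (hJ.mono hrV)
  set S : ℝ := max S₀ 0 with hSdef
  have hS0 : 0 ≤ S := le_max_right _ _
  have hS : ∀ p ∈ Q, ‖Js p‖ ≤ S := fun p hp => (hS₀ p hp).trans (le_max_left _ _)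
  obtain ⟨D, hD⟩ := (hχ.continuous_fderiv (by simp)).bounded_above_of_compact_support
    (hχc.fderiv ℝ)
  have hD0 : 0 ≤ D := (norm_nonneg _).trans (hD 0)
  obtain ⟨X, hX⟩ := hχ.continuous.bounded_above_of_compact_support hχc
  have hX0 : 0 ≤ X := (norm_nonneg _).trans (hX 0)
  obtain ⟨r₃, hr₃, hr₃'⟩ := Metric.uniformContinuousOn_iff.1
    (hQ.uniformContinuousOn_of_continuous (hJ.mono hrV)) (c / 4) (by positivity)
  obtain ⟨ε, hεdef⟩ : ∃ ε : ℝ, ε = min (min (r / (2 * (X + 1))) (r₃ / (2 * (X + 1))))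
    (c / (8 * ((D + 1) * (S + 1)))) := ⟨_, rfl⟩
  have hε : 0 < ε := by
    rw [hεdef]
    refine lt_min (lt_min (by positivity) (by positivity)) (by positivity)
  have hε₁ : ε ≤ r / (2 * (X + 1)) := by
    rw [hεdef]; exact (min_le_left _ _).trans (min_le_left _ _)
  have hε₂ : ε ≤ r₃ / (2 * (X + 1)) := by
    rw [hεdef]; exact (min_le_left _ _).trans (min_le_right _ _)
  have hε₃ : ε ≤ c / (8 * ((D + 1) * (S + 1))) := by
    rw [hεdef]; exact min_le_right _ _
  rw [le_div_iff₀ (by positivity)] at hε₁ hε₂ hε₃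
  obtain ⟨ρ, hρ⟩ := moll_exists (d := d) hε
  have hmove : ∀ p y : E d, ‖y‖ ≤ ε → ‖χ p • y‖ ≤ X * ε := by
    intro p y hy
    rw [norm_smul]
    exact mul_le_mul (hX p) hy (norm_nonneg _) hX0
  have hball : ∀ p ∈ tsupport χ, ∀ y, ‖y‖ ≤ ε → p + χ p • y ∈ G := by
    intro p hp y hy
    rw [hGdef, Metric.mem_thickening_iff]
    refine ⟨p, hp, ?_⟩
    rw [dist_eq_norm, add_sub_cancel_left]
    refine lt_of_le_of_lt (hmove p y hy) ?_
    nlinarith
  have hin : ∀ p, χ p ≠ 0 → p ∈ tsupport χ := fun p hp => subset_tsupport χ hp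
  have hfd : ∀ p, χ p = 0 → fderiv ℝ χ p = 0 := by
    intro p hp
    apply IsLocalMin.fderiv_eq_zero
    refine Eventually.of_forall fun x => ?_
    rw [hp]
    exact hχ0 x
  classical
  set J : E d → Al d 2 := JJ ρ χ Φ with hJdef
  obtain ⟨s', hs'⟩ : ∃ s' : E d → Al d 2, ∀ p, s' p = if χ p = 0 then s p else J p :=
    ⟨_, fun _ => rfl⟩
  set Ω : Set (E d) := V \ (k ∩ {p | χ p = 0}) with hΩ
  have hsplit : ∀ p ∈ Ω, (χ p = 0 ∧ p ∈ V \ k) ∨ (0 < χ p ∧ p ∈ V) := by
    intro p hp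
    by_cases h : χ p = 0
    · exact Or.inl ⟨h, hp.1, fun hk => hp.2 ⟨hk, h⟩⟩
    · exact Or.inr ⟨lt_of_le_of_ne (hχ0 p) (Ne.symm h), hp.1⟩
  have hΩo : IsOpen Ω := by
    have h1 : Ω = (V \ k) ∪ (V ∩ {p | χ p ≠ 0}) := by
      ext p
      constructor
      · intro hp
        rcases hsplit p hp with h | h
        · exact Or.inl h.2
        · exact Or.inr ⟨h.2, h.1.ne'⟩
      · rintro (h | h)
        · exact ⟨h.1, fun h' => h.2 h'.1⟩
        · exact ⟨h.1, fun h' => h.2 h'.2⟩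
    rw [h1]
    exact hVk.union (hV.inter (isOpen_ne_fun hχ.continuous continuous_const))
  -- near the support
  have hJs : ∀ p ∈ G \ k, χ p = 0 → J p = s p := by
    intro p hp h0
    rw [hJdef, JJ_eq hρ _ h0 (hfd p h0)]
    exact hΦs p ⟨hGQ hp.1, hp.2⟩
  have hev : ∀ p ∈ Ω, p ∈ G → s' =ᶠ[𝓝 p] J := by
    intro p hp hpG
    filter_upwards [hΩo.mem_nhds hp, hGo.mem_nhds hpG] with q hq hqG
    rw [hs' q]
    split_ifs with h
    · rcases hsplit q hq with h' | h'
      · exact (hJs q ⟨hqG, h'.2.2⟩ h).symm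
      · exact absurd h h'.1.ne'
    · rfl
  have hev2 : ∀ p, p ∉ tsupport χ → s' =ᶠ[𝓝 p] s := by
    intro p hp
    filter_upwards [notMem_tsupport_iff_eventuallyEq.1 hp] with q hq
    have hq' : χ q = 0 := hq
    rw [hs' q, if_pos hq']
  have hsm : ∀ p ∈ Ω, ContDiffAt ℝ ∞ s' p ∧ extDeriv s' p = 0 := by
    intro p hp
    by_cases hpt : p ∈ tsupport χ
    · have hpG : p ∈ G := hNG hpt
      have h1 : ContDiffAt ℝ ∞ J p ∧ extDeriv J p = 0 := by
        rcases hsplit p hp with h | h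
        · have hpk : p ∈ G \ k := ⟨hpG, h.2.2⟩
          obtain ⟨g1, g2⟩ := JJ_sm hSM hρ hχ hGk hΦsm (p₀ := p) (fun y _ => by
            rw [h.1, zero_smul, add_zero]
            exact hpk)
          refine ⟨g1, ?_⟩
          have h3 := g2 (fun _ => 0) (integrable_zero _ _ _) (fun _ => le_rfl) (fun y _ => by
            rw [h.1, zero_smul, add_zero, hΦcl p hpk]
            have : (0 : Al d 3).compContinuousLinearMap (LL (fderiv ℝ χ p) y) = 0 := by
              apply ContinuousAlternatingMap.ext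
              intro v
              rfl
            rw [this, norm_zero, mul_zero])
          rw [integral_zero] at h3
          exact norm_le_zero_iff.1 h3
        · refine ⟨JJ_smooth' hχ h.1 hρ.smooth (moll_cs hρ) hΦi, ?_⟩
          exact JJ_closed' hSM hε.le hρ hχ hGk hΦi hΦsm hΦcl hcap
            (fun q hq hqk => ⟨hqk, hGQ hq⟩) h.1 (hball p hpt)
      refine ⟨h1.1.congr_of_eventuallyEq (hev p hp hpG), ?_⟩
      rw [(hev p hp hpG).extDeriv_eq]
      exact h1.2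
    · have hpV : p ∈ V \ k := by
        rcases hsplit p hp with h | h
        · exact h.2
        · exact absurd (hin p h.1.ne') hpt
      refine ⟨(hs.contDiffAt (hVk.mem_nhds hpV)).congr_of_eventuallyEq (hev2 p hpt), ?_⟩
      rw [(hev2 p hpt).extDeriv_eq]
      exact hcl p hpV
  have hDε : 0 ≤ D * ε := by positivity
  have hl1 : 1 ≤ (1 + D * ε) ^ 2 := by nlinarith
  refine ⟨s', c / 2 / (1 + D * ε) ^ 2, by positivity, ?_, ?_, ?_, ?_⟩
  · intro p hp
    exact (hsm p hp).1.contDiffWithinAt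
  · intro p hp
    exact (hsm p hp).2
  · intro p hp
    rw [hs' p, if_pos hp]
  · intro p hp v
    rcases hsplit p hp with h | h
    · rw [hs' p, if_pos h.1]
      refine le_trans ?_ (hpos p h.2 v)
      have h1 : c / 2 / (1 + D * ε) ^ 2 ≤ c := by
        rw [div_le_iff₀ (by positivity)]
        nlinarith
      have h2 : 0 ≤ (1 + ‖s p‖) := by positivity
      exact mul_le_mul_of_nonneg_right (mul_le_mul_of_nonneg_right h1 h2) (sq_nonneg _)
    · rw [hs' p, if_neg h.1.ne']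
      have hpN : p ∈ tsupport χ := hin p h.1.ne'
      refine JJ_lb' hε.le hρ hΦi hc (δ₁ := c / 4) (by positivity) h.1 (hS p (hNQ hpN)) (hD p) ?_
        ?_ v
      · have h6 : D * S ≤ (D + 1) * (S + 1) := by nlinarith
        have h7 : ε * (D * S) ≤ ε * ((D + 1) * (S + 1)) := mul_le_mul_of_nonneg_left h6 hε.le
        nlinarith
      · filter_upwards [Pool.Agent.Y515.SY.aff_null hkcv p h.1.ne'] with y hy hyε
        have hyG := hball p hpN y hyε.le
        have hyQ := hGQ hyG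
        have hyk : p + χ p • y ∈ Q \ k := ⟨hyQ, fun h' => hy ⟨h', hyQ⟩⟩
        refine ⟨?_, ?_⟩
        · have h2 : dist p (p + χ p • y) < r₃ := by
            rw [dist_eq_norm, sub_add_cancel_left, norm_neg]
            refine lt_of_le_of_lt (hmove p y hyε.le) ?_
            nlinarith
          have h3 := hr₃' p (hNQ hpN) _ hyQ h2
          rw [dist_eq_norm] at h3
          exact h3.le
        · intro v
          rw [hΦs _ hyk]
          exact hpos _ ⟨hrV hyQ, hyk.2⟩ v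

end Pool.Agent.U896.SE
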