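import Pool.Agent.U896.SE.Proj

/-!
# Bounded eccentricity: squares with boundary off a small compact set
-/

set_option autoImplicit false

open Set Filter Topology MeasureTheory
open scoped Manifold ContDiff

noncomputable section

namespace Pool.Agent.U896.SE

open Pool.Agent.Y501.SY (E)

/-- the projection of a closed set along a compact set is closed -/
theorem closed_ex {A P : Type} [TopologicalSpace A] [TopologicalSpace P] {K : Set P}
    (hK : IsCompact K) {C : Set (A × P)} (hC : IsClosed C) :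
    IsClosed {a : A | ∃ p ∈ K, (a, p) ∈ C} := by
  rw [← isOpen_compl_iff, isOpen_iff_mem_nhds]
  intro a ha
  have h1 : ({a} : Set A) ×ˢ K ⊆ Cᶜ := by
    rintro ⟨a', p⟩ ⟨ha', hp⟩ hC'
    rw [mem_singleton_iff] at ha'
    subst ha'
    exact ha ⟨p, hp, hC'⟩
  obtain ⟨u, v, hu, hv, hau, hKv, huv⟩ :=
    generalized_tube_lemma isCompact_singleton hK hC.isOpen_compl h1
  filter_upwards [hu.mem_nhds (hau rfl)] with b hb
  rintro ⟨p, hp, hpC⟩
  exact huv ⟨hb, hKv hp⟩ hpC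

theorem aff_null {d : ℕ} {A : Set (E d)} (hA : volume A = 0) (p : E d) {c : ℝ} (hc : c ≠ 0) :
    volume {y : E d | p + c • y ∈ A} = 0 := by
  have h2 : {y : E d | p + c • y ∈ A} =
      (fun y : E d => c • y) ⁻¹' ((fun y : E d => p + y) ⁻¹' A) := rfl
  rw [h2, Measure.addHaar_preimage_smul _ hc, measure_preimage_add, hA, mul_zero]

theorem single_null {d m : ℕ} (hd : d = m + 3) (v : E d) : volume ({v} : Set (E d)) = 0 := by
  haveI : Nonempty (Fin d) := ⟨⟨0, by omega⟩⟩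
  haveI : Nontrivial (E d) := inferInstance
  exact measure_singleton v

/-- one side, first vector -/
theorem side_null {d m : ℕ} (hd : d = m + 3) {k : Set (E d)} (hkc : IsCompact k)
    (hk : μH[(m : ℝ)] k = 0) (x : E d) {a : ℝ} (ha : a ≠ 0) :
    volume {q : E d × E d | ∃ b ∈ Icc (-1 : ℝ) 1, x + a • q.1 + b • q.2 ∈ k} = 0 := by
  have hcl : IsClosed {q : E d × E d | ∃ b ∈ Icc (-1 : ℝ) 1, x + a • q.1 + b • q.2 ∈ k} := by
    refine closed_ex (C := {z : (E d × E d) × ℝ | x + a • z.1.1 + z.2 • z.1.2 ∈ k})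
      isCompact_Icc ?_
    exact hkc.isClosed.preimage (by fun_prop)
  rw [Measure.volume_eq_prod]
  -- exchange the factors
  have h1 : {q : E d × E d | ∃ b ∈ Icc (-1 : ℝ) 1, x + a • q.1 + b • q.2 ∈ k} =
      Prod.swap ⁻¹' {q : E d × E d | ∃ b ∈ Icc (-1 : ℝ) 1, x + a • q.2 + b • q.1 ∈ k} := by
    ext q
    rfl
  have hcl2 : IsClosed {q : E d × E d | ∃ b ∈ Icc (-1 : ℝ) 1, x + a • q.2 + b • q.1 ∈ k} := by
    refine closed_ex (C := {z : (E d × E d) × ℝ | x + a • z.1.2 + z.2 • z.1.1 ∈ k})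
      isCompact_Icc ?_
    exact hkc.isClosed.preimage (by fun_prop)
  rw [h1, ← Measure.map_apply measurable_swap hcl2.measurableSet, Measure.prod_swap]
  refine (Measure.measure_prod_null hcl2.measurableSet).2 ?_
  have h2 : ∀ᵐ f : E d, f ≠ 0 := by
    rw [ae_iff]
    simpa using single_null hd (0 : E d)
  filter_upwards [h2] with f hf
  have h3 := aff_null (span_null1 hd hk hf) x ha
  refine measure_mono_null ?_ h3
  rintro e ⟨b, -, hb⟩
  exact ⟨b, hb⟩

theorem exists_square {d m : ℕ} (hd : d = m + 3) {k : Set (E d)} (hkc : IsCompact k)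
    (hk : μH[(m : ℝ)] k = 0) (x e₀ f₀ : E d) {δ : ℝ} (hδ : 0 < δ) :
    ∃ e f : E d, ‖e - e₀‖ < δ ∧ ‖f - f₀‖ < δ ∧
      ∀ a ∈ Icc (-1 : ℝ) 1, ∀ b ∈ Icc (-1 : ℝ) 1, (|a| = 1 ∨ |b| = 1) →
        x + a • e + b • f ∉ k := by
  set S : ℝ → Set (E d × E d) := fun a =>
    {q : E d × E d | ∃ b ∈ Icc (-1 : ℝ) 1, x + a • q.1 + b • q.2 ∈ k} with hS
  have h1 : ∀ a : ℝ, a ≠ 0 → volume (S a) = 0 := fun a ha => side_null hd hkc hk x ha
  have h2 : ∀ a : ℝ, a ≠ 0 → volume (Prod.swap ⁻¹' (S a)) = 0 := by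
    intro a ha
    have h3 : MeasurePreserving (Prod.swap : E d × E d → E d × E d) volume volume := by
      rw [Measure.volume_eq_prod]
      exact Measure.measurePreserving_swap
    exact h3.quasiMeasurePreserving.preimage_null (h1 a ha)
  have h3 : volume (Metric.ball e₀ δ ×ˢ Metric.ball f₀ δ : Set (E d × E d)) ≠ 0 := by
    rw [Measure.volume_eq_prod, Measure.prod_prod]
    exact mul_ne_zero (Metric.measure_ball_pos _ _ hδ).ne' (Metric.measure_ball_pos _ _ hδ).ne'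
  have h4 : volume (S 1 ∪ S (-1) ∪ (Prod.swap ⁻¹' (S 1)) ∪ (Prod.swap ⁻¹' (S (-1)))) = 0 := by
    refine measure_union_null (measure_union_null (measure_union_null ?_ ?_) ?_) ?_
    · exact h1 1 one_ne_zero
    · exact h1 (-1) (by norm_num)
    · exact h2 1 one_ne_zero
    · exact h2 (-1) (by norm_num)
  have h5 : ((Metric.ball e₀ δ ×ˢ Metric.ball f₀ δ) \ (S 1 ∪ S (-1) ∪ (Prod.swap ⁻¹' (S 1)) ∪
      (Prod.swap ⁻¹' (S (-1))))).Nonempty := by
    by_contra hne
    rw [not_nonempty_iff_eq_empty, sdiff_eq_empty] at hne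
    exact h3 (measure_mono_null hne h4)
  obtain ⟨⟨e, f⟩, ⟨he, hf⟩, hn⟩ := h5
  simp only [mem_union, not_or] at hn
  obtain ⟨⟨⟨n1, n2⟩, n3⟩, n4⟩ := hn
  refine ⟨e, f, mem_ball_iff_norm.1 he, mem_ball_iff_norm.1 hf, ?_⟩
  intro a ha b hb hab hmem
  rcases hab with h | h
  · rcases abs_eq (zero_le_one' ℝ) |>.1 h with rfl | rfl
    · exact n1 ⟨b, hb, hmem⟩
    · exact n2 ⟨b, hb, hmem⟩
  · rcases abs_eq (zero_le_one' ℝ) |>.1 h with rfl | rfl
    · refine n3 ⟨a, ha, ?_⟩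
      change x + (1 : ℝ) • f + a • e ∈ k
      rwa [add_right_comm]
    · refine n4 ⟨a, ha, ?_⟩
      change x + (-1 : ℝ) • f + a • e ∈ k
      rwa [add_right_comm]

end Pool.Agent.U896.SE
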