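import Pool.Agent.U896.SE.Square
import Pool.Agent.Y515.SY.RG1

/-!
# Bounded eccentricity: areas of squares under a closed two-form
-/

set_option autoImplicit false

open Set Filter Topology MeasureTheory
open scoped Manifold ContDiff

noncomputable section

namespace Pool.Agent.U896.SE

open Pool.Agent.Y501.SY (E)
open Pool.Agent.Y515.SY (Al)

/-- the square `[-1, 1]²` -/
def sq : Set (Fin 2 → ℝ) := Icc (fun _ => -1) (fun _ => 1)

/-- the integral of `s` over the square with centre `y` and half sides `e`, `f` -/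
def HH {d : ℕ} (s : E d → Al d 2) (e f y : E d) : ℝ :=
  ∫ z in sq, s (y + z 0 • e + z 1 • f) ![e, f]

theorem vol_sq : volume sq = 4 := by
  unfold sq
  rw [Real.volume_Icc_pi]
  simp
  norm_num

theorem mem_sq {z : Fin 2 → ℝ} (hz : z ∈ sq) : z 0 ∈ Icc (-1 : ℝ) 1 ∧ z 1 ∈ Icc (-1 : ℝ) 1 :=
  ⟨⟨hz.1 0, hz.2 0⟩, ⟨hz.1 1, hz.2 1⟩⟩

theorem two_b {d : ℕ} (η : Al d 2) (v w : E d) : |η ![v, w]| ≤ ‖η‖ * (‖v‖ * ‖w‖) := by
  have := η.le_opNorm ![v, w]
  simpa [Fin.prod_univ_two, Real.norm_eq_abs] using this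

theorem stokes {d : ℕ} {s : E d → Al d 2} {P : Set (E d)} (hP : IsOpen P)
    (hs : ContDiffOn ℝ ∞ s P) (hcl : ∀ p ∈ P, extDeriv s p = 0) {y u e f : E d}
    (hin : ∀ t ∈ Icc (0 : ℝ) 1, ∀ a ∈ Icc (-1 : ℝ) 1, ∀ b ∈ Icc (-1 : ℝ) 1,
      y + t • u + a • e + b • f ∈ P) {M : ℝ}
    (hM : ∀ t ∈ Icc (0 : ℝ) 1, ∀ a ∈ Icc (-1 : ℝ) 1, ∀ b ∈ Icc (-1 : ℝ) 1, (|a| = 1 ∨ |b| = 1) →
      ‖s (y + t • u + a • e + b • f)‖ ≤ M) :
    |HH s e f (y + u) - HH s e f y| ≤ 4 * M * ‖u‖ * (‖e‖ + ‖f‖) := by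
  have hM0 : 0 ≤ M := (norm_nonneg _).trans
    (hM 0 (by simp) 1 (by simp) 1 (by simp) (Or.inl (by simp)))
  let A : (Fin 3 → ℝ) → E d := fun x => y + x 0 • u + x 1 • e + x 2 • f
  let A' : (Fin 3 → ℝ) →L[ℝ] E d :=
    (ContinuousLinearMap.proj (R := ℝ) (φ := fun _ : Fin 3 => ℝ) 0).smulRight u +
    (ContinuousLinearMap.proj (R := ℝ) (φ := fun _ : Fin 3 => ℝ) 1).smulRight e +
    (ContinuousLinearMap.proj (R := ℝ) (φ := fun _ : Fin 3 => ℝ) 2).smulRight f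
  have hA' : ∀ x, A x = y + A' x := by
    intro x
    simp only [A, A', _root_.add_apply, ContinuousLinearMap.smulRight_apply,
      ContinuousLinearMap.proj_apply]
    abel
  have hAd : ∀ x, HasFDerivAt A A' x := by
    intro x
    have h1 : A = fun x => y + A' x := funext hA'
    rw [h1]
    exact A'.hasFDerivAt.const_add y
  let lo : Fin 3 → ℝ := ![0, -1, -1]
  let hi : Fin 3 → ℝ := ![1, 1, 1]
  have hle : lo ≤ hi := by
    intro i
    fin_cases i <;> simp [lo, hi]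
  have hmem : ∀ x ∈ Icc lo hi, x 0 ∈ Icc (0 : ℝ) 1 ∧ x 1 ∈ Icc (-1 : ℝ) 1 ∧ x 2 ∈ Icc (-1 : ℝ) 1 := by
    intro x hx
    exact ⟨⟨hx.1 0, hx.2 0⟩, ⟨hx.1 1, hx.2 1⟩, ⟨hx.1 2, hx.2 2⟩⟩
  have hAP : ∀ x ∈ Icc lo hi, A x ∈ P := by
    intro x hx
    obtain ⟨h0, h1, h2⟩ := hmem x hx
    exact hin _ h0 _ h1 _ h2
  have hsd : ∀ p ∈ P, HasFDerivAt s (fderiv ℝ s p) p := fun p hp =>
    ((hs.contDiffAt (hP.mem_nhds hp)).differentiableAt (by simp)).hasFDerivAt
  let ev : E d → E d → (Al d 2 →L[ℝ] ℝ) := fun v w =>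
    ContinuousAlternatingMap.apply ℝ (E d) ℝ ![v, w]
  have hev : ∀ v w (η : Al d 2), ev v w η = η ![v, w] := fun v w η => rfl
  let F : Fin 3 → (Fin 3 → ℝ) → ℝ :=
    ![fun x => ev e f (s (A x)), fun x => -ev u f (s (A x)), fun x => ev u e (s (A x))]
  let F' : Fin 3 → (Fin 3 → ℝ) → ((Fin 3 → ℝ) →L[ℝ] ℝ) :=
    ![fun x => (ev e f).comp ((fderiv ℝ s (A x)).comp A'),
      fun x => -((ev u f).comp ((fderiv ℝ s (A x)).comp A')),
      fun x => (ev u e).comp ((fderiv ℝ s (A x)).comp A')]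
  have hF : ∀ x ∈ Icc lo hi, ∀ i, HasFDerivAt (F i) (F' i x) x := by
    intro x hx i
    have h1 : HasFDerivAt (fun x => s (A x)) ((fderiv ℝ s (A x)).comp A') x :=
      (hsd _ (hAP x hx)).comp x (hAd x)
    fin_cases i
    · exact (ev e f).hasFDerivAt.comp x h1
    · exact ((ev u f).hasFDerivAt.comp x h1).neg
    · exact (ev u e).hasFDerivAt.comp x h1
  have hdiv : ∀ x ∈ Icc lo hi, ∑ i, F' i x (Pi.single i 1) = 0 := by
    intro x hx
    have h1 := hcl _ (hAP x hx)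
    have h2 : extDeriv s (A x) ![u, e, f] = 0 := by rw [h1]; rfl
    unfold extDeriv at h2
    rw [ContinuousAlternatingMap.alternatizeUncurryFin_apply] at h2
    rw [Fin.sum_univ_three] at h2 ⊢
    have e0 : A' (Pi.single 0 1) = u := by simp [A']
    have e1 : A' (Pi.single 1 1) = e := by simp [A']
    have e2 : A' (Pi.single 2 1) = f := by simp [A']
    have r0 : (0 : Fin 3).removeNth ![u, e, f] = ![e, f] := by
      ext i j; fin_cases i <;> rfl
    have r1 : (1 : Fin 3).removeNth ![u, e, f] = ![u, f] := by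
      ext i j; fin_cases i <;> rfl
    have r2 : (2 : Fin 3).removeNth ![u, e, f] = ![u, e] := by
      ext i j; fin_cases i <;> rfl
    rw [r0, r1, r2] at h2
    have g0 : F' 0 x (Pi.single 0 1) = fderiv ℝ s (A x) u ![e, f] := by
      change ev e f (fderiv ℝ s (A x) (A' (Pi.single 0 1))) = _
      rw [e0]; rfl
    have g1 : F' 1 x (Pi.single 1 1) = -(fderiv ℝ s (A x) e ![u, f]) := by
      change -(ev u f (fderiv ℝ s (A x) (A' (Pi.single 1 1)))) = _
      rw [e1]; rfl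
    have g2 : F' 2 x (Pi.single 2 1) = fderiv ℝ s (A x) f ![u, e] := by
      change ev u e (fderiv ℝ s (A x) (A' (Pi.single 2 1))) = _
      rw [e2]; rfl
    rw [g0, g1, g2]
    simpa using h2
  have hmain := integral_divergence_of_hasFDerivAt_off_countable' lo hi hle F F' ∅
    countable_empty (fun i => fun x hx => (hF x hx i).continuousAt.continuousWithinAt)
    (fun x hx i => hF x ⟨fun j => (hx.1 j (mem_univ j)).1.le, fun j => (hx.1 j (mem_univ j)).2.le⟩ i)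
    (by
      refine (integrableOn_zero (μ := volume) (s := Icc lo hi)).congr_fun (fun x hx => ?_)
        measurableSet_Icc
      rw [hdiv x hx])
  have hzero : ∫ x in Icc lo hi, ∑ i, F' i x (Pi.single i 1) = 0 := by
    rw [setIntegral_congr_fun measurableSet_Icc (fun x hx => hdiv x hx)]
    simp
  rw [hzero, Fin.sum_univ_three] at hmain
  -- the faces
  have f0 : ∀ c : ℝ, ∫ x in Icc (lo ∘ (0 : Fin 3).succAbove) (hi ∘ (0 : Fin 3).succAbove),
      F 0 ((0 : Fin 3).insertNth c x) = HH s e f (y + c • u) := by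
    intro c
    have h1 : Icc (lo ∘ (0 : Fin 3).succAbove) (hi ∘ (0 : Fin 3).succAbove) = sq := by
      unfold sq
      congr 1
      · funext i; fin_cases i <;> rfl
      · funext i; fin_cases i <;> rfl
    rw [h1]
    unfold HH
    congr 1
  have fb : ∀ (i : Fin 3) (hi1 : i ≠ 0) (c : ℝ), c = 1 ∨ c = -1 →
      |∫ x in Icc (lo ∘ i.succAbove) (hi ∘ i.succAbove), F i (i.insertNth c x)| ≤
        2 * (M * (‖u‖ * (if i = 1 then ‖f‖ else ‖e‖))) := by
    intro i hi1 c hc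
    have hc1 : c ∈ Icc (-1 : ℝ) 1 := by rcases hc with rfl | rfl <;> simp
    have hc2 : |c| = 1 := by rcases hc with rfl | rfl <;> simp
    have hvol : volume (Icc (lo ∘ i.succAbove) (hi ∘ i.succAbove)) = 2 := by
      rw [Real.volume_Icc_pi]
      fin_cases i
      · exact absurd rfl hi1
      · simp [lo, hi, Fin.succAbove]
        norm_num
      · simp [lo, hi, Fin.succAbove]
        norm_num
    have h1 : ∀ x ∈ Icc (lo ∘ i.succAbove) (hi ∘ i.succAbove),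
        ‖F i (i.insertNth c x)‖ ≤ M * (‖u‖ * (if i = 1 then ‖f‖ else ‖e‖)) := by
      intro x hx
      fin_cases i
      · exact absurd rfl hi1
      · have hx0 : x 0 ∈ Icc (0 : ℝ) 1 := ⟨hx.1 0, hx.2 0⟩
        have hx1 : x 1 ∈ Icc (-1 : ℝ) 1 := ⟨hx.1 1, hx.2 1⟩
        have h2 := hM _ hx0 c hc1 _ hx1 (Or.inl hc2)
        have h3 := two_b (s (y + x 0 • u + c • e + x 1 • f)) u f
        change ‖-(s (y + x 0 • u + c • e + x 1 • f) ![u, f])‖ ≤ M * (‖u‖ * ‖f‖)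
        rw [norm_neg, Real.norm_eq_abs]
        exact h3.trans (mul_le_mul_of_nonneg_right h2 (by positivity))
      · have hx0 : x 0 ∈ Icc (0 : ℝ) 1 := ⟨hx.1 0, hx.2 0⟩
        have hx1 : x 1 ∈ Icc (-1 : ℝ) 1 := ⟨hx.1 1, hx.2 1⟩
        have h2 := hM _ hx0 _ hx1 c hc1 (Or.inr hc2)
        have h3 := two_b (s (y + x 0 • u + x 1 • e + c • f)) u e
        change ‖s (y + x 0 • u + x 1 • e + c • f) ![u, e]‖ ≤ M * (‖u‖ * ‖e‖)
        rw [Real.norm_eq_abs]
        exact h3.trans (mul_le_mul_of_nonneg_right h2 (by positivity))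
    have h2 := norm_setIntegral_le_of_norm_le_const (μ := volume) (by rw [hvol]; simp) h1
    rw [Real.norm_eq_abs, Measure.real, hvol] at h2
    refine h2.trans (le_of_eq ?_)
    simp
    ring_nf
  have k0 := f0 (hi 0)
  have k1 := f0 (lo 0)
  have hh0 : hi 0 = 1 := rfl
  have hl0 : lo 0 = 0 := rfl
  rw [hh0, one_smul] at k0
  rw [hl0, zero_smul, add_zero] at k1
  have b1 := fb 1 (by decide) (hi 1) (Or.inl rfl)
  have b2 := fb 1 (by decide) (lo 1) (Or.inr rfl)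
  have b3 := fb 2 (by decide) (hi 2) (Or.inl rfl)
  have b4 := fb 2 (by decide) (lo 2) (Or.inr rfl)
  rw [if_pos rfl] at b1 b2
  rw [if_neg (by decide)] at b3 b4
  rw [hh0, hl0, k0, k1] at hmain
  have e1 : HH s e f (y + u) - HH s e f y =
      -((∫ x in Icc (lo ∘ (1 : Fin 3).succAbove) (hi ∘ (1 : Fin 3).succAbove),
        F 1 ((1 : Fin 3).insertNth (hi 1) x)) -
        ∫ x in Icc (lo ∘ (1 : Fin 3).succAbove) (hi ∘ (1 : Fin 3).succAbove),
        F 1 ((1 : Fin 3).insertNth (lo 1) x)) -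
      ((∫ x in Icc (lo ∘ (2 : Fin 3).succAbove) (hi ∘ (2 : Fin 3).succAbove),
        F 2 ((2 : Fin 3).insertNth (hi 2) x)) -
        ∫ x in Icc (lo ∘ (2 : Fin 3).succAbove) (hi ∘ (2 : Fin 3).succAbove),
        F 2 ((2 : Fin 3).insertNth (lo 2) x)) := by
    linarith
  rw [e1]
  obtain ⟨l1, r1⟩ := abs_le.1 b1
  obtain ⟨l2, r2⟩ := abs_le.1 b2
  obtain ⟨l3, r3⟩ := abs_le.1 b3
  obtain ⟨l4, r4⟩ := abs_le.1 b4
  rw [abs_le]
  constructor <;> linarith

end Pool.Agent.U896.SE
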